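import Mathlib

open MeasureTheory

namespace Pool.Agent.CTH

/-- bounded measurable kernels with bounded support -/
structure Nice (f : ℝ → ℝ → ℝ) : Prop where
  meas : Measurable (Function.uncurry f)
  bdd : ∃ B : ℝ, ∀ x y, |f x y| ≤ B
  supp : ∃ R : ℝ, ∀ x y, (R < |x| ∨ R < |y|) → f x y = 0

/-- the `L^3` norm -/
noncomputable def n3 (f : ℝ → ℝ → ℝ) : ℝ :=
  (∫ p : ℝ × ℝ, |f p.1 p.2| ^ 3) ^ ((1 : ℝ) / 3)

/-- the trilinear form with kernel `K (x + y + z)` -/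
noncomputable def form (K : ℝ → ℝ) (f g h : ℝ → ℝ → ℝ) : ℝ :=
  ∫ p : ℝ × ℝ × ℝ, f p.1 p.2.1 * g p.2.1 p.2.2 * h p.2.2 p.1 * K (p.1 + p.2.1 + p.2.2)

end Pool.Agent.CTH
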