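import Mathlib
import Pool.Agent.Helper912.ZDefs

open MeasureTheory Finset
open scoped ENNReal

namespace Pool.Agent.CTH

open Helper912.Z

/-- class of admissible functions -/
structure Good (f : ℝ × ℝ → ℝ) : Prop where
  meas : Measurable f
  supp : HasCompactSupport f
  bdd : ∃ M : ℝ, ∀ p, |f p| ≤ M

noncomputable def N3 (f : ℝ × ℝ → ℝ) : ℝ := (eLpNorm f 3 volume).toReal

theorem N3_nonneg (f : ℝ × ℝ → ℝ) : 0 ≤ N3 f := ENNReal.toReal_nonneg

theorem h3_tri (F : ℝ × ℝ × ℝ → ℝ≥0∞) (hF : Measurable F) :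
    ∫⁻ p, F p = ∫⁻ x, ∫⁻ y, ∫⁻ z, F (x, y, z) := by
  rw [Measure.volume_eq_prod, lintegral_prod _ hF.aemeasurable]
  refine lintegral_congr fun x => ?_
  have h : Measurable fun q : ℝ × ℝ => F (x, q) := hF.comp (by fun_prop)
  rw [Measure.volume_eq_prod, lintegral_prod _ h.aemeasurable]

theorem h3_rpow (a K : ℝ≥0∞) : (a ^ (3 : ℝ) * K) ^ ((1 : ℝ) / 3) = a * K ^ ((1 : ℝ) / 3) := by
  rw [ENNReal.mul_rpow_of_nonneg _ _ (by norm_num), ← ENNReal.rpow_mul]
  norm_num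

theorem h3_cube (K : ℝ≥0∞) : K ^ ((1 : ℝ) / 3) * K ^ ((1 : ℝ) / 3) * K ^ ((1 : ℝ) / 3) = K := by
  have h : K ^ ((1 : ℝ) / 3) * K ^ ((1 : ℝ) / 3) * K ^ ((1 : ℝ) / 3) = (K ^ ((1 : ℝ) / 3)) ^ 3 := by
    ring
  rw [h, ← ENNReal.rpow_natCast, ← ENNReal.rpow_mul]
  norm_num

theorem holder3 (K : ℝ → ℝ → ℝ → ℝ≥0∞) (L : ℝ≥0∞)
    (hK : Measurable (fun p : ℝ × ℝ × ℝ => K p.1 p.2.1 p.2.2))
    (hz : ∀ x y, ∫⁻ z, K x y z ≤ L) (hx : ∀ y z, ∫⁻ x, K x y z ≤ L) (hy : ∀ x z, ∫⁻ y, K x y z ≤ L)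
    (a b c : ℝ × ℝ → ℝ≥0∞) (ha : Measurable a) (hb : Measurable b) (hc : Measurable c) :
    ∫⁻ x, ∫⁻ y, ∫⁻ z, a (x, y) * b (y, z) * c (z, x) * K x y z ≤
      L * ((∫⁻ p, a p ^ (3:ℝ)) ^ ((1:ℝ)/3) * (∫⁻ p, b p ^ (3:ℝ)) ^ ((1:ℝ)/3)
        * (∫⁻ p, c p ^ (3:ℝ)) ^ ((1:ℝ)/3)) := by
  set F0 : ℝ × ℝ × ℝ → ℝ≥0∞ := fun p => a (p.1, p.2.1) ^ (3 : ℝ) * K p.1 p.2.1 p.2.2 with hF0
  set F1 : ℝ × ℝ × ℝ → ℝ≥0∞ := fun p => b (p.2.1, p.2.2) ^ (3 : ℝ) * K p.1 p.2.1 p.2.2 with hF1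
  set F2 : ℝ × ℝ × ℝ → ℝ≥0∞ := fun p => c (p.2.2, p.1) ^ (3 : ℝ) * K p.1 p.2.1 p.2.2 with hF2
  have ma : Measurable fun p : ℝ × ℝ × ℝ => a (p.1, p.2.1) := ha.comp (by fun_prop)
  have mb : Measurable fun p : ℝ × ℝ × ℝ => b (p.2.1, p.2.2) := hb.comp (by fun_prop)
  have mc : Measurable fun p : ℝ × ℝ × ℝ => c (p.2.2, p.1) := hc.comp (by fun_prop)
  have m0 : Measurable F0 := (ma.pow_const _).mul hK
  have m1 : Measurable F1 := (mb.pow_const _).mul hK
  have m2 : Measurable F2 := (mc.pow_const _).mul hK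
  have mm : Measurable fun p : ℝ × ℝ × ℝ =>
      a (p.1, p.2.1) * b (p.2.1, p.2.2) * c (p.2.2, p.1) * K p.1 p.2.1 p.2.2 :=
    ((ma.mul mb).mul mc).mul hK
  have hlhs : ∫⁻ x, ∫⁻ y, ∫⁻ z, a (x, y) * b (y, z) * c (z, x) * K x y z =
      ∫⁻ p : ℝ × ℝ × ℝ, F0 p ^ ((1 : ℝ) / 3) * F1 p ^ ((1 : ℝ) / 3) * F2 p ^ ((1 : ℝ) / 3) := by
    rw [← h3_tri _ mm]
    refine lintegral_congr fun p => ?_
    simp only [hF0, hF1, hF2]
    rw [h3_rpow, h3_rpow, h3_rpow]
    conv_lhs => rw [← h3_cube (K p.1 p.2.1 p.2.2)]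
    ring
  have hH : ∫⁻ p : ℝ × ℝ × ℝ, F0 p ^ ((1 : ℝ) / 3) * F1 p ^ ((1 : ℝ) / 3) * F2 p ^ ((1 : ℝ) / 3) ≤
      (∫⁻ p, F0 p) ^ ((1 : ℝ) / 3) * (∫⁻ p, F1 p) ^ ((1 : ℝ) / 3) * (∫⁻ p, F2 p) ^ ((1 : ℝ) / 3) := by
    have h := ENNReal.lintegral_prod_norm_pow_le (μ := (volume : Measure (ℝ × ℝ × ℝ)))
      (Finset.univ : Finset (Fin 3)) (f := ![F0, F1, F2]) (p := fun _ => (1 : ℝ) / 3)
      (by
        intro i _
        fin_cases i
        · exact m0.aemeasurable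
        · exact m1.aemeasurable
        · exact m2.aemeasurable) (by simp) (by intro i _; norm_num)
    simpa [Fin.prod_univ_three] using h
  have i0 : ∫⁻ p, F0 p ≤ L * ∫⁻ p, a p ^ (3 : ℝ) := by
    have ma3 : Measurable fun p : ℝ × ℝ => a p ^ (3 : ℝ) := ha.pow_const _
    rw [h3_tri _ m0, Measure.volume_eq_prod ℝ ℝ, lintegral_prod _ ma3.aemeasurable,
      ← lintegral_const_mul _ ma3.lintegral_prod_right']
    refine lintegral_mono fun x => ?_
    have mx : Measurable fun y => a (x, y) ^ (3 : ℝ) := ma3.comp (by fun_prop)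
    rw [← lintegral_const_mul _ mx]
    refine lintegral_mono fun y => ?_
    have mz : Measurable fun z => K x y z := hK.comp (by fun_prop : Measurable fun z => (x, y, z))
    simp only [hF0]
    rw [lintegral_const_mul _ mz, mul_comm L]
    gcongr
    exact hz x y
  have i1 : ∫⁻ p, F1 p ≤ L * ∫⁻ p, b p ^ (3 : ℝ) := by
    have mb3 : Measurable fun p : ℝ × ℝ => b p ^ (3 : ℝ) := hb.pow_const _
    rw [Measure.volume_eq_prod ℝ (ℝ × ℝ), lintegral_prod_symm _ m1.aemeasurable,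
      ← lintegral_const_mul _ mb3]
    refine lintegral_mono fun q => ?_
    have mx : Measurable fun x => K x q.1 q.2 :=
      hK.comp (by fun_prop : Measurable fun x => (x, q.1, q.2))
    simp only [hF1]
    rw [lintegral_const_mul _ mx, mul_comm L]
    gcongr
    exact hx q.1 q.2
  have i2 : ∫⁻ p, F2 p ≤ L * ∫⁻ p, c p ^ (3 : ℝ) := by
    have mc3 : Measurable fun p : ℝ × ℝ => c p ^ (3 : ℝ) := hc.pow_const _
    have mc3' : Measurable fun p : ℝ × ℝ => c (p.2, p.1) ^ (3 : ℝ) := mc3.comp (by fun_prop)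
    rw [h3_tri _ m2, Measure.volume_eq_prod ℝ ℝ, lintegral_prod_symm _ mc3.aemeasurable,
      ← lintegral_const_mul _ mc3'.lintegral_prod_right']
    refine lintegral_mono fun x => ?_
    have mx : Measurable fun z => c (z, x) ^ (3 : ℝ) := mc3.comp (by fun_prop)
    rw [← lintegral_const_mul _ mx]
    have mF : Measurable fun q : ℝ × ℝ => F2 (x, q.1, q.2) := m2.comp (by fun_prop)
    rw [lintegral_lintegral_swap (f := fun y z => F2 (x, y, z)) mF.aemeasurable]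
    refine lintegral_mono fun z => ?_
    have mz : Measurable fun y => K x y z := hK.comp (by fun_prop : Measurable fun y => (x, y, z))
    simp only [hF2]
    rw [lintegral_const_mul _ mz, mul_comm L]
    gcongr
    exact hy x z
  rw [hlhs]
  refine hH.trans ?_
  calc (∫⁻ p, F0 p) ^ ((1 : ℝ) / 3) * (∫⁻ p, F1 p) ^ ((1 : ℝ) / 3) * (∫⁻ p, F2 p) ^ ((1 : ℝ) / 3)
      ≤ (L * ∫⁻ p, a p ^ (3 : ℝ)) ^ ((1 : ℝ) / 3) * (L * ∫⁻ p, b p ^ (3 : ℝ)) ^ ((1 : ℝ) / 3) *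
        (L * ∫⁻ p, c p ^ (3 : ℝ)) ^ ((1 : ℝ) / 3) := by gcongr
    _ = _ := by
        rw [ENNReal.mul_rpow_of_nonneg _ _ (by norm_num), ENNReal.mul_rpow_of_nonneg _ _ (by norm_num),
          ENNReal.mul_rpow_of_nonneg _ _ (by norm_num)]
        conv_rhs => rw [← h3_cube L]
        ring

theorem F3_meas {f g h : ℝ × ℝ → ℝ} (hf : Good f) (hg : Good g) (hh : Good h) :
    Measurable (F3 f g h) := by
  unfold F3
  exact ((hf.meas.comp (by fun_prop)).mul (hg.meas.comp (by fun_prop))).mul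
    (hh.meas.comp (by fun_prop))

theorem F3_int {f g h : ℝ × ℝ → ℝ} (hf : Good f) (hg : Good g) (hh : Good h) :
    Integrable (F3 f g h) volume := by
  obtain ⟨Mf, hMf⟩ := hf.bdd
  obtain ⟨Mg, hMg⟩ := hg.bdd
  obtain ⟨Mh, hMh⟩ := hh.bdd
  obtain ⟨Rf, hRf⟩ := hf.supp.isBounded.subset_closedBall 0
  obtain ⟨Rg, hRg⟩ := hg.supp.isBounded.subset_closedBall 0
  have hsupp : Function.support (F3 f g h) ⊆ Metric.closedBall (0 : ℝ × ℝ × ℝ) (max Rf Rg) := by
    intro p hp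
    rw [Function.mem_support] at hp
    unfold F3 at hp
    have h1 : f (p.1, p.2.1) ≠ 0 := fun h0 => hp (by rw [h0]; ring)
    have h2 : g (p.2.1, p.2.2) ≠ 0 := fun h0 => hp (by rw [h0]; ring)
    have h3 := hRf (subset_tsupport f h1)
    have h4 := hRg (subset_tsupport g h2)
    rw [mem_closedBall_zero_iff, Prod.norm_def, max_le_iff] at h3 h4
    rw [mem_closedBall_zero_iff, Prod.norm_def, max_le_iff, Prod.norm_def, max_le_iff]
    exact ⟨le_trans h3.1 (le_max_left _ _), le_trans h3.2 (le_max_left _ _),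
      le_trans h4.2 (le_max_right _ _)⟩
  have hmeas : Measurable (F3 f g h) := by
    have e1 : Measurable (fun p : ℝ × ℝ × ℝ => f (p.1, p.2.1)) :=
      hf.meas.comp (by fun_prop)
    have e2 : Measurable (fun p : ℝ × ℝ × ℝ => g (p.2.1, p.2.2)) :=
      hg.meas.comp (by fun_prop)
    have e3 : Measurable (fun p : ℝ × ℝ × ℝ => h (p.2.2, p.1)) :=
      hh.meas.comp (by fun_prop)
    exact (e1.mul e2).mul e3
  rw [← integrableOn_iff_integrable_of_support_subset hsupp]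
  refine Measure.integrableOn_of_bounded (M := Mf * Mg * Mh) ?_ hmeas.aestronglyMeasurable ?_
  · exact (isCompact_closedBall _ _).measure_lt_top.ne
  · refine Filter.Eventually.of_forall (fun p => ?_)
    rw [Real.norm_eq_abs]
    unfold F3
    rw [abs_mul, abs_mul]
    have a1 := hMf (p.1, p.2.1)
    have a2 := hMg (p.2.1, p.2.2)
    have a3 := hMh (p.2.2, p.1)
    have b1 := abs_nonneg (f (p.1, p.2.1))
    have b2 := abs_nonneg (g (p.2.1, p.2.2))
    have b3 := abs_nonneg (h (p.2.2, p.1))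
    have c1 : |f (p.1, p.2.1)| * |g (p.2.1, p.2.2)| ≤ Mf * Mg :=
      mul_le_mul a1 a2 b2 (le_trans b1 a1)
    exact mul_le_mul c1 a3 b3 (mul_nonneg (le_trans b1 a1) (le_trans b2 a2))

theorem eLp_lt {f : ℝ × ℝ → ℝ} (hf : Good f) : eLpNorm f 3 volume < ⊤ := by
  obtain ⟨M, hM⟩ := hf.bdd
  have h : MemLp f 3 volume :=
    hf.supp.memLp_of_bound hf.meas.aestronglyMeasurable M
      (Filter.Eventually.of_forall (fun p => by rw [Real.norm_eq_abs]; exact hM p))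
  exact h.2

theorem holderK_line (r : ℝ) (hr : 0 < r) (s : ℝ) :
    ∫⁻ z : ℝ, (if |s + z| ≤ 2 * r then ENNReal.ofReal r⁻¹ else 0) ≤ 4 := by
  have h1 : (fun z : ℝ => if |s + z| ≤ 2 * r then ENNReal.ofReal r⁻¹ else 0) =
      (Set.Icc (-s - 2 * r) (-s + 2 * r)).indicator (fun _ => ENNReal.ofReal r⁻¹) := by
    funext z
    rw [Set.indicator_apply]
    have h2 : |s + z| ≤ 2 * r ↔ z ∈ Set.Icc (-s - 2 * r) (-s + 2 * r) := by
      rw [abs_le, Set.mem_Icc]
      constructor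
      · rintro ⟨h3, h4⟩; constructor <;> linarith
      · rintro ⟨h3, h4⟩; constructor <;> linarith
    simp only [h2]
  rw [h1, lintegral_indicator measurableSet_Icc, setLIntegral_const, Real.volume_Icc,
    ← ENNReal.ofReal_mul (by positivity)]
  have h5 : r⁻¹ * (-s + 2 * r - (-s - 2 * r)) = 4 := by
    field_simp
    ring
  rw [h5]
  norm_num

theorem holderK_norm {f : ℝ × ℝ → ℝ} :
    (∫⁻ p, (ENNReal.ofReal |f p|) ^ (3 : ℝ)) ^ ((1 : ℝ) / 3) = eLpNorm f 3 volume := by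
  rw [eLpNorm_eq_lintegral_rpow_enorm_toReal (by norm_num) (by norm_num)]
  simp only [Real.enorm_eq_ofReal_abs, ENNReal.toReal_ofNat]

/-- TARGET -/
theorem holderK {f g h : ℝ × ℝ → ℝ} (hf : Good f) (hg : Good g) (hh : Good h) (r : ℝ) (hr : 0 < r) :
    ∫ p : ℝ × ℝ × ℝ, |F3 f g h p| * (if |p.1 + p.2.1 + p.2.2| ≤ 2*r then r⁻¹ else 0) ≤
      4 * (N3 f * N3 g * N3 h) := by
  set K : ℝ → ℝ → ℝ → ℝ≥0∞ := fun x y z =>
    if |x + y + z| ≤ 2 * r then ENNReal.ofReal r⁻¹ else 0 with hKdef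
  have hKm : Measurable (fun p : ℝ × ℝ × ℝ => K p.1 p.2.1 p.2.2) :=
    Measurable.ite (measurableSet_le (by fun_prop) measurable_const) measurable_const
      measurable_const
  have hz : ∀ x y, ∫⁻ z, K x y z ≤ 4 := fun x y => holderK_line r hr (x + y)
  have hx : ∀ y z, ∫⁻ x, K x y z ≤ 4 := by
    intro y z
    have h1 : ∀ x, K x y z = if |(y + z) + x| ≤ 2 * r then ENNReal.ofReal r⁻¹ else 0 := by
      intro x
      have : x + y + z = (y + z) + x := by ring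
      simp only [hKdef, this]
    simp only [h1]
    exact holderK_line r hr (y + z)
  have hy : ∀ x z, ∫⁻ y, K x y z ≤ 4 := by
    intro x z
    have h1 : ∀ y, K x y z = if |(x + z) + y| ≤ 2 * r then ENNReal.ofReal r⁻¹ else 0 := by
      intro y
      have : x + y + z = (x + z) + y := by ring
      simp only [hKdef, this]
    simp only [h1]
    exact holderK_line r hr (x + z)
  have mf : Measurable fun p => ENNReal.ofReal |f p| :=
    ENNReal.measurable_ofReal.comp (measurable_abs.comp hf.meas)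
  have mg : Measurable fun p => ENNReal.ofReal |g p| :=
    ENNReal.measurable_ofReal.comp (measurable_abs.comp hg.meas)
  have mh : Measurable fun p => ENNReal.ofReal |h p| :=
    ENNReal.measurable_ofReal.comp (measurable_abs.comp hh.meas)
  have mF : Measurable (F3 f g h) := by
    unfold F3
    exact ((hf.meas.comp (by fun_prop)).mul (hg.meas.comp (by fun_prop))).mul
      (hh.meas.comp (by fun_prop))
  have mk : Measurable (fun p : ℝ × ℝ × ℝ =>
      (if |p.1 + p.2.1 + p.2.2| ≤ 2 * r then r⁻¹ else (0 : ℝ))) :=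
    Measurable.ite (measurableSet_le (by fun_prop) measurable_const) measurable_const
      measurable_const
  have mI : Measurable (fun p : ℝ × ℝ × ℝ =>
      |F3 f g h p| * (if |p.1 + p.2.1 + p.2.2| ≤ 2 * r then r⁻¹ else 0)) :=
    (measurable_abs.comp mF).mul mk
  rw [integral_eq_lintegral_of_nonneg_ae (Filter.Eventually.of_forall fun p => by
    show 0 ≤ |F3 f g h p| * (if |p.1 + p.2.1 + p.2.2| ≤ 2 * r then r⁻¹ else 0)
    have : (0 : ℝ) ≤ if |p.1 + p.2.1 + p.2.2| ≤ 2 * r then r⁻¹ else 0 := by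
      split_ifs
      · positivity
      · exact le_refl _
    positivity) mI.aestronglyMeasurable]
  have hpt : ∀ p : ℝ × ℝ × ℝ,
      ENNReal.ofReal (|F3 f g h p| * (if |p.1 + p.2.1 + p.2.2| ≤ 2 * r then r⁻¹ else 0)) =
      ENNReal.ofReal |f (p.1, p.2.1)| * ENNReal.ofReal |g (p.2.1, p.2.2)| *
        ENNReal.ofReal |h (p.2.2, p.1)| * K p.1 p.2.1 p.2.2 := by
    intro p
    rw [ENNReal.ofReal_mul (abs_nonneg _)]
    congr 1
    · simp only [F3]
      rw [abs_mul, abs_mul, ENNReal.ofReal_mul (by positivity), ENNReal.ofReal_mul (abs_nonneg _)]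
    · simp only [hKdef]
      split_ifs
      · rfl
      · simp
  have hlin : ∫⁻ p : ℝ × ℝ × ℝ,
      ENNReal.ofReal (|F3 f g h p| * (if |p.1 + p.2.1 + p.2.2| ≤ 2 * r then r⁻¹ else 0)) ≤
      4 * (eLpNorm f 3 volume * eLpNorm g 3 volume * eLpNorm h 3 volume) := by
    rw [lintegral_congr hpt]
    have mm : Measurable fun p : ℝ × ℝ × ℝ =>
        ENNReal.ofReal |f (p.1, p.2.1)| * ENNReal.ofReal |g (p.2.1, p.2.2)| *
        ENNReal.ofReal |h (p.2.2, p.1)| * K p.1 p.2.1 p.2.2 := by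
      have m1 : Measurable fun p : ℝ × ℝ × ℝ => ENNReal.ofReal |f (p.1, p.2.1)| :=
        mf.comp (by fun_prop : Measurable fun p : ℝ × ℝ × ℝ => (p.1, p.2.1))
      have m2 : Measurable fun p : ℝ × ℝ × ℝ => ENNReal.ofReal |g (p.2.1, p.2.2)| :=
        mg.comp (by fun_prop : Measurable fun p : ℝ × ℝ × ℝ => (p.2.1, p.2.2))
      have m3 : Measurable fun p : ℝ × ℝ × ℝ => ENNReal.ofReal |h (p.2.2, p.1)| :=
        mh.comp (by fun_prop : Measurable fun p : ℝ × ℝ × ℝ => (p.2.2, p.1))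
      exact ((m1.mul m2).mul m3).mul hKm
    rw [h3_tri _ mm]
    have hmain := holder3 K 4 hKm hz hx hy (fun p => ENNReal.ofReal |f p|)
      (fun p => ENNReal.ofReal |g p|) (fun p => ENNReal.ofReal |h p|) mf mg mh
    rw [holderK_norm, holderK_norm, holderK_norm] at hmain
    exact hmain
  have hfin : 4 * (eLpNorm f 3 volume * eLpNorm g 3 volume * eLpNorm h 3 volume) ≠ ⊤ :=
    ENNReal.mul_ne_top (by norm_num)
      (ENNReal.mul_ne_top (ENNReal.mul_ne_top (eLp_lt hf).ne (eLp_lt hg).ne) (eLp_lt hh).ne)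
  refine (ENNReal.toReal_mono hfin hlin).trans (le_of_eq ?_)
  rw [ENNReal.toReal_mul, ENNReal.toReal_mul, ENNReal.toReal_mul]
  simp only [N3, ENNReal.toReal_ofNat]

end Pool.Agent.CTH
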