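import Mathlib
import Pool.Agent.CTH.Defs

open MeasureTheory Finset

namespace Pool.Agent.CTH

/-- admissible odd kernels -/
structure Ker (φ : ℝ → ℝ) (M : ℝ) : Prop where
  cont : Continuous φ
  odd : ∀ u, φ (-u) = - φ u
  supp : ∀ u, 2 ≤ |u| → φ u = 0
  bdd : ∀ u, |φ u| ≤ M

/-- primitive -/
noncomputable def Ph (φ : ℝ → ℝ) (v : ℝ) : ℝ := ∫ u in (0:ℝ)..v, φ u

variable {φ : ℝ → ℝ} {M : ℝ}

theorem Ker.M_nonneg (h : Ker φ M) : 0 ≤ M := le_trans (abs_nonneg _) (h.bdd 0)

theorem Ph_hasDeriv (h : Ker φ M) (v : ℝ) : HasDerivAt (Ph φ) (φ v) v :=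
  intervalIntegral.integral_hasDerivAt_right (h.cont.intervalIntegrable _ _)
    (h.cont.stronglyMeasurableAtFilter _ _) h.cont.continuousAt

theorem Ph_zero : Ph φ 0 = 0 := by simp [Ph]

theorem Ph_neg (h : Ker φ M) (v : ℝ) : Ph φ (-v) = Ph φ v := by
  unfold Ph
  have h1 : ∫ u in (0:ℝ)..(-v), φ u = - ∫ u in (0:ℝ)..v, φ (-u) := by
    rw [intervalIntegral.integral_comp_neg (fun u => φ u)]
    rw [neg_zero, intervalIntegral.integral_symm]
  rw [h1, ← intervalIntegral.integral_neg]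
  refine intervalIntegral.integral_congr fun u _ => ?_
  simp only [h.odd, neg_neg]

theorem Ph_lin (h : Ker φ M) (v : ℝ) : |Ph φ v| ≤ M * |v| := by
  have := intervalIntegral.norm_integral_le_of_norm_le_const (a := (0:ℝ)) (b := v) (C := M)
    (f := φ) (fun x _ => by simpa using h.bdd x)
  simpa [Ph, Real.norm_eq_abs] using this

theorem Ph_const_pos (h : Ker φ M) (v : ℝ) (hv : 2 ≤ v) : Ph φ v = Ph φ 2 := by
  unfold Ph
  rw [← intervalIntegral.integral_add_adjacent_intervals (a := (0:ℝ)) (b := 2) (c := v)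
    (h.cont.intervalIntegrable _ _) (h.cont.intervalIntegrable _ _)]
  have : ∫ u in (2:ℝ)..v, φ u = ∫ u in (2:ℝ)..v, (0:ℝ) := by
    refine intervalIntegral.integral_congr fun u hu => ?_
    rw [Set.uIcc_of_le hv] at hu
    exact h.supp u (by rw [abs_of_nonneg (by linarith [hu.1])]; exact hu.1)
  rw [this]; simp

theorem Ph_const (h : Ker φ M) (v : ℝ) (hv : 2 ≤ |v|) : Ph φ v = Ph φ 2 := by
  rcases le_total 0 v with h0 | h0
  · rw [abs_of_nonneg h0] at hv
    exact Ph_const_pos h v hv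
  · rw [abs_of_nonpos h0] at hv
    rw [← Ph_neg h v]
    exact Ph_const_pos h _ hv

theorem Ph_bd (h : Ker φ M) (v : ℝ) : |Ph φ v| ≤ 2 * M := by
  have hM := h.M_nonneg
  rcases le_total 2 |v| with h0 | h0
  · rw [Ph_const h v h0]
    have := Ph_lin h 2
    rw [abs_of_nonneg (by norm_num : (0:ℝ) ≤ 2)] at this
    linarith
  · have := Ph_lin h v
    nlinarith

theorem Ph_cont (h : Ker φ M) : Continuous (Ph φ) :=
  continuous_iff_continuousAt.mpr fun v => (Ph_hasDeriv h v).continuousAt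

theorem one_scale (h : Ker φ M) (s a : ℝ) (hs : s ≠ 0) (ha : 0 < a) :
    ∫ t in (1:ℝ)..2, t⁻¹ * ((a*t)⁻¹ * φ (s/(a*t))) = (Ph φ (s/a) - Ph φ (s/(2*a)))/s := by
  have hder : ∀ t ∈ Set.uIcc (1:ℝ) 2,
      HasDerivAt (fun t => - Ph φ (s/(a*t)) / s) (t⁻¹ * ((a*t)⁻¹ * φ (s/(a*t)))) t := by
    intro t ht
    rw [Set.uIcc_of_le (by norm_num)] at ht
    have ht0 : 0 < t := by linarith [ht.1]
    have h2 : HasDerivAt (fun t : ℝ => a*t) a t := by
      simpa using (hasDerivAt_id t).const_mul a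
    have h1 : HasDerivAt (fun t => s/(a*t)) ((0 * (a*t) - s*a)/(a*t)^2) t :=
      (hasDerivAt_const t s).div h2 (by positivity)
    have h4 : HasDerivAt (fun t => - Ph φ (s/(a*t)) / s)
        (-(φ (s/(a*t)) * ((0 * (a*t) - s*a)/(a*t)^2)) / s) t :=
      (show HasDerivAt (fun t => Ph φ (s/(a*t))) (φ (s/(a*t)) * ((0 * (a*t) - s*a)/(a*t)^2)) t from
        HasDerivAt.comp (h₂ := Ph φ) (h := fun t => s/(a*t)) t (Ph_hasDeriv h _) h1).neg.div_const s
    refine h4.congr_deriv ?_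
    have ha' : a ≠ 0 := ha.ne'
    have ht' : t ≠ 0 := ht0.ne'
    rw [zero_mul, zero_sub, mul_inv]
    have : -(φ (s / (a * t)) * (-(s * a) / (a * t) ^ 2)) / s = φ (s/(a*t)) * (s / s) * (a / (a*t)^2) := by
      ring
    rw [this, div_self hs]
    generalize φ (s/(a*t)) = w
    field_simp
  have hint : IntervalIntegrable (fun t => t⁻¹ * ((a*t)⁻¹ * φ (s/(a*t)))) volume 1 2 := by
    apply ContinuousOn.intervalIntegrable
    intro t ht
    rw [Set.uIcc_of_le (by norm_num)] at ht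
    have ht0 : t ≠ 0 := by linarith [ht.1]
    have hat : a * t ≠ 0 := mul_ne_zero ha.ne' ht0
    apply ContinuousAt.continuousWithinAt
    have hc : ContinuousAt (fun t : ℝ => s/(a*t)) t :=
      continuousAt_const.div (continuousAt_const.mul continuousAt_id) hat
    exact (continuousAt_inv₀ ht0).mul (((continuousAt_const.mul continuousAt_id).inv₀ hat).mul
      (ContinuousAt.comp (h.cont.continuousAt) hc))
  rw [intervalIntegral.integral_eq_sub_of_hasDerivAt hder hint]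
  have e1 : a * 2 = 2 * a := by ring
  rw [e1, mul_one]
  ring

theorem all_scales (h : Ker φ M) (s ε : ℝ) (hs : s ≠ 0) (hε : 0 < ε) (n : ℕ) :
    ∫ t in (1:ℝ)..2, t⁻¹ * ∑ i ∈ range n, (2^i * (ε*t))⁻¹ * φ (s/(2^i*(ε*t))) =
      (Ph φ (s/ε) - Ph φ (s/(2^n*ε)))/s := by
  have e0 : ∀ t : ℝ, t⁻¹ * ∑ i ∈ range n, (2^i * (ε*t))⁻¹ * φ (s/(2^i*(ε*t))) =
      ∑ i ∈ range n, t⁻¹ * (((2^i * ε)*t)⁻¹ * φ (s/((2^i*ε)*t))) := by
    intro t
    rw [mul_sum]
    refine sum_congr rfl fun i _ => ?_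
    rw [← mul_assoc ((2:ℝ)^i)]
  simp_rw [e0]
  rw [intervalIntegral.integral_finsetSum]
  · have : ∀ i ∈ range n, (∫ t in (1:ℝ)..2, t⁻¹ * (((2^i * ε)*t)⁻¹ * φ (s/((2^i*ε)*t)))) =
        (Ph φ (s/(2^i*ε)))/s - (Ph φ (s/(2^(i+1)*ε)))/s := by
      intro i _
      rw [one_scale h s (2^i*ε) hs (by positivity)]
      rw [← mul_assoc, pow_succ]
      rw [show (2:ℝ) * 2^i = 2^i * 2 by ring]
      ring
    rw [sum_congr rfl this, Finset.sum_range_sub' (fun i => (Ph φ (s/(2^i*ε)))/s)]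
    simp only [pow_zero, one_mul]
    ring
  · intro i _
    apply ContinuousOn.intervalIntegrable
    intro t ht
    rw [Set.uIcc_of_le (by norm_num)] at ht
    have ht0 : t ≠ 0 := by linarith [ht.1]
    have hat : 2^i * ε * t ≠ 0 := mul_ne_zero (by positivity) ht0
    apply ContinuousAt.continuousWithinAt
    have hc : ContinuousAt (fun t : ℝ => s/(2^i*ε*t)) t :=
      continuousAt_const.div (continuousAt_const.mul continuousAt_id) hat
    exact (continuousAt_inv₀ ht0).mul (((continuousAt_const.mul continuousAt_id).inv₀ hat).mul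
      (ContinuousAt.comp (h.cont.continuousAt) hc))

/-- the truncation error -/
theorem err_bound (h : Ker φ M) (s ε b N : ℝ) (hs : s ≠ 0) (hε : 0 < ε) (hb : ε ≤ b) (hN : b ≤ N)
    (hN2 : N < 2*b) :
    |Ph φ 2 * (if ε < |s| ∧ |s| < N then s⁻¹ else 0) - (Ph φ (s/ε) - Ph φ (s/b))/s| ≤
      6 * M * ((if |s| ≤ 2*ε then ε⁻¹ else 0) + (if |s| ≤ 2*b then b⁻¹ else 0)) := by
  have hM := h.M_nonneg
  have hs0 : 0 < |s| := abs_pos.mpr hs
  have hb0 : 0 < b := by linarith
  have hN0 : 0 < N := by linarith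
  have e1 : |Ph φ (s/ε)| ≤ M * |s| / ε := by
    have := Ph_lin h (s/ε); rw [abs_div, abs_of_pos hε] at this; linarith [mul_div_assoc M |s| ε]
  have e2 : |Ph φ (s/b)| ≤ M * |s| / b := by
    have := Ph_lin h (s/b); rw [abs_div, abs_of_pos hb0] at this; linarith [mul_div_assoc M |s| b]
  have e1' := Ph_bd h (s/ε)
  have e2' := Ph_bd h (s/b)
  have e3' := Ph_bd h 2
  -- rewrite the left side as |X| / |s|
  have key : ∀ c : ℝ, (c = 1 ∨ c = 0) →
      |Ph φ 2 * (c * s⁻¹) - (Ph φ (s/ε) - Ph φ (s/b))/s| =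
        |c * Ph φ 2 - Ph φ (s/ε) + Ph φ (s/b)| / |s| := by
    intro c _
    rw [← abs_div]
    congr 1
    field_simp
    ring
  have hbinv : b⁻¹ ≤ ε⁻¹ := inv_anti₀ hε hb
  have hεi : 0 < ε⁻¹ := inv_pos.mpr hε
  have hbi : 0 < b⁻¹ := inv_pos.mpr hb0
  by_cases c1 : |s| ≤ 2*ε
  · -- near
    have hR : 6 * M * ε⁻¹ ≤ 6 * M * ((if |s| ≤ 2*ε then ε⁻¹ else 0) + (if |s| ≤ 2*b then b⁻¹ else 0)) := by
      rw [if_pos c1]
      have : (0:ℝ) ≤ (if |s| ≤ 2*b then b⁻¹ else 0) := by split_ifs <;> positivity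
      have h6 : 0 ≤ 6 * M := by linarith
      nlinarith
    refine le_trans ?_ hR
    by_cases c2 : ε < |s|
    · -- ε < |s| ≤ 2ε
      have hx : ∀ c : ℝ, (c = 1 ∨ c = 0) → |Ph φ 2 * (c * s⁻¹) - (Ph φ (s/ε) - Ph φ (s/b))/s| ≤ 6 * M * ε⁻¹ := by
        intro c hc
        rw [key c hc, div_le_iff₀ hs0]
        have t1 : |c * Ph φ 2 - Ph φ (s/ε) + Ph φ (s/b)| ≤ 6 * M := by
          have hc' : |c * Ph φ 2| ≤ 2 * M := by
            rcases hc with rfl | rfl
            · simpa using e3'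
            · simp; exact hM
          have := abs_add_le (c * Ph φ 2 - Ph φ (s/ε)) (Ph φ (s/b))
          have := abs_sub (c * Ph φ 2) (Ph φ (s/ε))
          linarith
        have t2 : 1 ≤ ε⁻¹ * |s| := by
          rw [inv_mul_eq_div, le_div_iff₀ hε]; linarith
        nlinarith
      split_ifs with c3
      · simpa using hx 1 (Or.inl rfl)
      · simpa using hx 0 (Or.inr rfl)
    · rw [if_neg (fun hh => c2 hh.1)]
      have := key 0 (Or.inr rfl)
      simp only [zero_mul] at this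
      rw [this, div_le_iff₀ hs0]
      have t1 : |0 - Ph φ (s/ε) + Ph φ (s/b)| ≤ M * |s| / ε + M * |s| / b := by
        have := abs_add_le (0 - Ph φ (s/ε)) (Ph φ (s/b))
        rw [zero_sub, abs_neg] at this
        rw [zero_sub]
        linarith
      refine t1.trans ?_
      rw [div_eq_mul_inv, div_eq_mul_inv]
      have : M * |s| * b⁻¹ ≤ M * |s| * ε⁻¹ := mul_le_mul_of_nonneg_left hbinv (by positivity)
      have : 0 ≤ M * |s| * ε⁻¹ := by positivity
      nlinarith
  · push Not at c1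
    have hc2 : ε < |s| := by linarith
    have hPe : Ph φ (s/ε) = Ph φ 2 := by
      apply Ph_const h
      rw [abs_div, abs_of_pos hε, le_div_iff₀ hε]
      exact c1.le
    by_cases c4 : |s| ≤ 2*b
    · rw [if_neg (not_le.mpr c1), if_pos c4, zero_add]
      by_cases c3 : |s| < N
      · rw [if_pos ⟨hc2, c3⟩]
        have := key 1 (Or.inl rfl)
        simp only [one_mul] at this
        rw [this, div_le_iff₀ hs0, hPe]
        rw [sub_self, zero_add]
        refine e2.trans ?_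
        rw [div_eq_mul_inv]
        have : 0 ≤ M * |s| * b⁻¹ := by positivity
        nlinarith
      · rw [if_neg (fun hh => c3 hh.2)]
        have := key 0 (Or.inr rfl)
        simp only [zero_mul] at this
        rw [this, div_le_iff₀ hs0, hPe]
        have t1 : |0 - Ph φ 2 + Ph φ (s/b)| ≤ 4 * M := by
          have := abs_add_le (0 - Ph φ 2) (Ph φ (s/b))
          rw [zero_sub, abs_neg] at this
          rw [zero_sub]
          linarith
        push Not at c3
        have t2 : 1 ≤ b⁻¹ * |s| := by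
          rw [inv_mul_eq_div, le_div_iff₀ hb0]; linarith
        nlinarith
    · push Not at c4
      have hPb : Ph φ (s/b) = Ph φ 2 := by
        apply Ph_const h
        rw [abs_div, abs_of_pos hb0, le_div_iff₀ hb0]
        exact c4.le
      have hNs : ¬ |s| < N := by push Not; linarith
      rw [if_neg (fun hh => hNs hh.2), if_neg (not_le.mpr c1), if_neg (not_le.mpr c4), hPe, hPb]
      simp

end Pool.Agent.CTH
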