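import Mathlib
import Pool.Agent.CTH.Ker
import Pool.Agent.CTH.Hold

open MeasureTheory Finset

namespace Pool.Agent.CTH

open Helper912.Z

/-- the clamped kernel -/
noncomputable def ww (φ : ℝ → ℝ) (ε : ℝ) (n : ℕ) (t s : ℝ) : ℝ :=
  (max t 1)⁻¹ * ∑ i ∈ range n, (2^i * (ε*(max t 1)))⁻¹ * φ (s/(2^i*(ε*(max t 1))))

theorem ww_cont {φ : ℝ → ℝ} {M : ℝ} (h : Ker φ M) {ε : ℝ} (hε : 0 < ε) (n : ℕ) :
    Continuous (fun q : ℝ × ℝ => ww φ ε n q.1 q.2) := by
  have h1 : ∀ t : ℝ, (max t 1) ≠ 0 := fun t => by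
    have : 1 ≤ max t 1 := le_max_right _ _
    linarith
  have hm : Continuous (fun q : ℝ × ℝ => max q.1 1) := continuous_fst.max continuous_const
  have h2 : ∀ (i : ℕ) (t : ℝ), 2^i * (ε*(max t 1)) ≠ 0 := fun i t =>
    mul_ne_zero (by positivity) (mul_ne_zero hε.ne' (h1 t))
  have hd : ∀ i : ℕ, Continuous (fun q : ℝ × ℝ => 2^i * (ε*(max q.1 1))) := fun i =>
    continuous_const.mul (continuous_const.mul hm)
  unfold ww
  refine (hm.inv₀ (fun q => h1 q.1)).mul (continuous_finsetSum _ fun i _ => ?_)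
  exact ((hd i).inv₀ (fun q => h2 i q.1)).mul
    (h.cont.comp (continuous_snd.div (hd i) (fun q => h2 i q.1)))

theorem ww_bdd {φ : ℝ → ℝ} {M : ℝ} (h : Ker φ M) {ε : ℝ} (hε : 0 < ε) (n : ℕ) (t s : ℝ) :
    |ww φ ε n t s| ≤ ∑ i ∈ range n, (2^i * ε)⁻¹ * M := by
  have h1 : 1 ≤ max t 1 := le_max_right _ _
  have hM := h.M_nonneg
  unfold ww
  rw [abs_mul]
  have e1 : |(max t 1)⁻¹| ≤ 1 := by
    rw [abs_of_nonneg (by positivity)]
    exact inv_le_one_of_one_le₀ h1
  have e2 : |∑ i ∈ range n, (2^i * (ε*(max t 1)))⁻¹ * φ (s/(2^i*(ε*(max t 1))))| ≤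
      ∑ i ∈ range n, (2^i * ε)⁻¹ * M := by
    refine (abs_sum_le_sum_abs _ _).trans (sum_le_sum fun i _ => ?_)
    rw [abs_mul]
    have : |(2^i * (ε*(max t 1)))⁻¹| ≤ (2^i * ε)⁻¹ := by
      rw [abs_of_nonneg (by positivity)]
      apply inv_anti₀ (by positivity)
      have : ε * 1 ≤ ε * max t 1 := mul_le_mul_of_nonneg_left h1 hε.le
      have : 2^i * (ε * 1) ≤ 2^i * (ε * max t 1) := mul_le_mul_of_nonneg_left this (by positivity)
      linarith
    exact mul_le_mul this (h.bdd _) (abs_nonneg _) (by positivity)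
  calc _ ≤ 1 * ∑ i ∈ range n, (2^i * ε)⁻¹ * M := mul_le_mul e1 e2 (abs_nonneg _) zero_le_one
    _ = _ := one_mul _

theorem ker_zero {φ : ℝ → ℝ} {M : ℝ} (h : Ker φ M) : φ 0 = 0 := by
  have := h.odd 0
  rw [neg_zero] at this
  linarith

theorem ww_int {φ : ℝ → ℝ} {M : ℝ} (h : Ker φ M) {ε : ℝ} (hε : 0 < ε) (n : ℕ) (s : ℝ) :
    ∫ t in (1:ℝ)..2, ww φ ε n t s = (Ph φ (s/ε) - Ph φ (s/(2^n*ε)))/s := by
  have e0 : ∫ t in (1:ℝ)..2, ww φ ε n t s =
      ∫ t in (1:ℝ)..2, t⁻¹ * ∑ i ∈ range n, (2^i * (ε*t))⁻¹ * φ (s/(2^i*(ε*t))) := by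
    refine intervalIntegral.integral_congr fun t ht => ?_
    rw [Set.uIcc_of_le (by norm_num)] at ht
    simp only [ww, max_eq_left ht.1]
  rw [e0]
  by_cases hs : s = 0
  · subst hs
    simp [ker_zero h]
  · exact all_scales h s ε hs hε n

theorem fub {φ : ℝ → ℝ} {M : ℝ} (h : Ker φ M) {ε : ℝ} (hε : 0 < ε) (n : ℕ)
    (F : ℝ × ℝ × ℝ → ℝ) (hF : Integrable F volume) :
    ∫ p, F p * ((Ph φ ((p.1 + p.2.1 + p.2.2)/ε) - Ph φ ((p.1 + p.2.1 + p.2.2)/(2^n*ε)))/
        (p.1 + p.2.1 + p.2.2)) =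
      ∫ t in (1:ℝ)..2, ∫ p, F p * ww φ ε n t (p.1 + p.2.1 + p.2.2) := by
  rw [intervalIntegral.integral_of_le (by norm_num)]
  have hsw := integral_integral_swap (μ := volume.restrict (Set.Ioc (1:ℝ) 2))
    (ν := (volume : Measure (ℝ × ℝ × ℝ)))
    (f := fun t p => F p * ww φ ε n t (p.1 + p.2.1 + p.2.2)) (by
      have i1 : Integrable (fun q : ℝ × (ℝ × ℝ × ℝ) => F q.2)
          ((volume.restrict (Set.Ioc (1:ℝ) 2)).prod (volume : Measure (ℝ × ℝ × ℝ))) :=
        hF.comp_snd _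
      refine i1.mul_bdd (c := ∑ i ∈ range n, (2^i * ε)⁻¹ * M) ?_ ?_
      · have : Continuous (fun q : ℝ × (ℝ × ℝ × ℝ) => ww φ ε n q.1 (q.2.1 + q.2.2.1 + q.2.2.2)) :=
          (ww_cont h hε n).comp (by fun_prop :
            Continuous (fun q : ℝ × (ℝ × ℝ × ℝ) => (q.1, q.2.1 + q.2.2.1 + q.2.2.2)))
        exact this.aestronglyMeasurable
      · exact Filter.Eventually.of_forall fun q => by
          simpa [Real.norm_eq_abs] using ww_bdd h hε n q.1 (q.2.1 + q.2.2.1 + q.2.2.2))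
  rw [hsw]
  refine integral_congr_ae (Filter.Eventually.of_forall fun p => ?_)
  simp only
  rw [integral_const_mul]
  congr 1
  rw [← intervalIntegral.integral_of_le (by norm_num), ww_int h hε n]

theorem tbound {M C : ℝ} (h : Ker phi M) (hC : ∀ (f g h : ℝ × ℝ → ℝ),
    Measurable f → Measurable g → Measurable h →
    HasCompactSupport f → HasCompactSupport g → HasCompactSupport h →
    (∃ M : ℝ, ∀ p, |f p| ≤ M) → (∃ M : ℝ, ∀ p, |g p| ≤ M) → (∃ M : ℝ, ∀ p, |h p| ≤ M) →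
    ∀ (t : ℝ), 0 < t → ∀ (I : Finset ℤ) (e : ℤ → ℝ), (∀ i, |e i| ≤ 1) →
    |∑ i ∈ I, e i * ((2:ℝ)^i * t)⁻¹ * ∫ p : ℝ × ℝ × ℝ,
        F3 f g h p * phi ((p.1 + p.2.1 + p.2.2) / ((2:ℝ)^i * t))|
      ≤ C * (eLpNorm f 3 volume).toReal * (eLpNorm g 3 volume).toReal
          * (eLpNorm h 3 volume).toReal)
    {f g k : ℝ × ℝ → ℝ} (hf : Good f) (hg : Good g) (hk : Good k) {ε : ℝ} (hε : 0 < ε) (n : ℕ) (t : ℝ) :
    |∫ p, F3 f g k p * ww phi ε n t (p.1 + p.2.1 + p.2.2)| ≤ C * (N3 f * N3 g * N3 k) := by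
  have h1 : 1 ≤ max t 1 := le_max_right _ _
  have ht0 : 0 < ε * max t 1 := mul_pos hε (by linarith)
  have key := hC f g k hf.meas hg.meas hk.meas hf.supp hg.supp hk.supp hf.bdd hg.bdd hk.bdd
    (ε * max t 1) ht0 ((range n).image (fun i : ℕ => (i : ℤ))) (fun _ => (max t 1)⁻¹)
    (fun _ => by
      rw [abs_of_nonneg (by positivity)]
      exact inv_le_one_of_one_le₀ h1)
  rw [sum_image (fun a _ b _ hab => by exact_mod_cast hab)] at key
  have hint : ∀ i ∈ range n, Integrable (fun p : ℝ × ℝ × ℝ => (max t 1)⁻¹ * ((2:ℝ)^i * (ε * max t 1))⁻¹ *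
      (F3 f g k p * phi ((p.1 + p.2.1 + p.2.2) / ((2:ℝ)^i * (ε * max t 1))))) volume := by
    intro i _
    refine Integrable.const_mul ?_ _
    refine (F3_int hf hg hk).mul_bdd (c := M) ?_ ?_
    · exact (h.cont.comp (by fun_prop)).aestronglyMeasurable
    · exact Filter.Eventually.of_forall fun q => by simpa [Real.norm_eq_abs] using h.bdd _
  have e0 : ∫ p, F3 f g k p * ww phi ε n t (p.1 + p.2.1 + p.2.2) =
      ∑ i ∈ range n, (max t 1)⁻¹ * ((2:ℝ)^((i:ℕ):ℤ) * (ε * max t 1))⁻¹ * ∫ p : ℝ × ℝ × ℝ,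
        F3 f g k p * phi ((p.1 + p.2.1 + p.2.2) / ((2:ℝ)^((i:ℕ):ℤ) * (ε * max t 1))) := by
    simp only [zpow_natCast]
    simp_rw [← integral_const_mul]
    rw [← integral_finsetSum _ hint]
    refine integral_congr_ae (Filter.Eventually.of_forall fun p => ?_)
    simp only [ww]
    rw [mul_sum, mul_sum]
    refine sum_congr rfl fun i _ => ?_
    ring
  rw [e0]
  refine key.trans (le_of_eq ?_)
  simp only [N3]
  ring

/-- the truncated kernel -/
noncomputable def trunc (ε N s : ℝ) : ℝ := if ε < |s| ∧ |s| < N then s⁻¹ else 0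

theorem Z3a {M : ℝ} (h : Ker phi M) (hc : Ph phi 2 ≠ 0) (hZ : Z2) :
    ∃ C : ℝ, 0 ≤ C ∧ ∀ f g k : ℝ × ℝ → ℝ, Good f → Good g → Good k → ∀ ε N : ℝ, 0 < ε → ε < N →
      |∫ p : ℝ × ℝ × ℝ, F3 f g k p * trunc ε N (p.1 + p.2.1 + p.2.2)| ≤ C * (N3 f * N3 g * N3 k) := by
  obtain ⟨C, hC⟩ := hZ
  have hM := h.M_nonneg
  refine ⟨(|C| + 48 * M) / |Ph phi 2|, by positivity, ?_⟩
  intro f g k hf hg hk ε N hε hN
  set NN : ℝ := N3 f * N3 g * N3 k with hNN
  have hNN0 : 0 ≤ NN := mul_nonneg (mul_nonneg (N3_nonneg _) (N3_nonneg _)) (N3_nonneg _)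
  obtain ⟨n, hn1, hn2⟩ := exists_nat_pow_near (x := N/ε) (y := 2)
    (by rw [le_div_iff₀ hε]; linarith) (by norm_num)
  set b : ℝ := 2^n * ε with hb
  have hb1 : ε ≤ b := by
    have : (1:ℝ) ≤ 2^n := one_le_pow₀ (by norm_num)
    nlinarith
  have hb2 : b ≤ N := by rw [le_div_iff₀ hε] at hn1; exact hn1
  have hb3 : N < 2*b := by
    rw [div_lt_iff₀ hε, pow_succ] at hn2
    rw [hb]; linarith
  have hb0 : 0 < b := by linarith
  have hFi := F3_int hf hg hk
  set F := F3 f g k with hF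
  let s : ℝ × ℝ × ℝ → ℝ := fun p => p.1 + p.2.1 + p.2.2
  have hsc : Continuous s := by fun_prop
  -- the error estimate
  have herr : ∀ p : ℝ × ℝ × ℝ, |Ph phi 2 * trunc ε N (s p) - (Ph phi (s p/ε) - Ph phi (s p/b))/s p| ≤
      6 * M * ((if |s p| ≤ 2*ε then ε⁻¹ else 0) + (if |s p| ≤ 2*b then b⁻¹ else 0)) := by
    intro p
    by_cases hs : s p = 0
    · rw [hs]
      have hz : trunc ε N 0 = 0 := by simp [trunc]
      rw [hz]
      simp only [mul_zero, div_zero, sub_zero, abs_zero]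
      have : 0 < ε⁻¹ := inv_pos.mpr hε
      have : 0 < b⁻¹ := inv_pos.mpr hb0
      split_ifs <;> positivity
    · exact err_bound h (s p) ε b N hs hε hb1 hb2 hb3
  -- integrability
  have hIm : ∀ (c r : ℝ), Integrable (fun p => |F p| * (if |s p| ≤ r then c else 0)) volume := by
    intro c r
    refine hFi.abs.mul_bdd (c := |c|) ?_ ?_
    · have : Measurable (fun p : ℝ × ℝ × ℝ => if |s p| ≤ r then c else 0) :=
        Measurable.ite (measurableSet_le hsc.measurable.abs measurable_const)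
          measurable_const measurable_const
      exact this.aestronglyMeasurable
    · exact Filter.Eventually.of_forall fun q => by
        simp only [Real.norm_eq_abs]
        split_ifs
        · exact le_rfl
        · simp
  have hT : Integrable (fun p => F p * trunc ε N (s p)) volume := by
    refine hFi.mul_bdd (c := ε⁻¹) ?_ ?_
    · have hm : Measurable (trunc ε N) := by
        unfold trunc
        refine Measurable.ite ?_ measurable_inv measurable_const
        exact (measurableSet_lt measurable_const measurable_id.abs).inter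
          (measurableSet_lt measurable_id.abs measurable_const)
      exact (hm.comp hsc.measurable).aestronglyMeasurable
    · exact Filter.Eventually.of_forall fun q => by
        simp only [Real.norm_eq_abs, trunc]
        split_ifs with hq
        · rw [abs_inv]; exact inv_anti₀ hε hq.1.le
        · simp [hε.le]
  have hLb : ∀ x : ℝ, |(Ph phi (x/ε) - Ph phi (x/b))/x| ≤ M * ε⁻¹ + M * b⁻¹ := by
    intro x
    by_cases hx : x = 0
    · rw [hx, div_zero, abs_zero]; positivity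
    · have hx0 : 0 < |x| := abs_pos.mpr hx
      rw [abs_div, div_le_iff₀ hx0]
      have e1 := Ph_lin h (x/ε)
      have e2 := Ph_lin h (x/b)
      rw [abs_div, abs_of_pos hε] at e1
      rw [abs_div, abs_of_pos hb0] at e2
      have := abs_sub (Ph phi (x/ε)) (Ph phi (x/b))
      calc _ ≤ M * (|x|/ε) + M * (|x|/b) := by linarith
        _ = _ := by rw [div_eq_mul_inv, div_eq_mul_inv]; ring
  have hL : Integrable (fun p => F p * ((Ph phi (s p/ε) - Ph phi (s p/b))/s p)) volume := by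
    refine hFi.mul_bdd (c := M * ε⁻¹ + M * b⁻¹) ?_ ?_
    · have m1 : Measurable (fun p => (Ph phi (s p/ε) - Ph phi (s p/b))/s p) :=
        ((((Ph_cont h).measurable.comp (hsc.measurable.div_const ε))).sub
          ((Ph_cont h).measurable.comp (hsc.measurable.div_const b))).div hsc.measurable
      exact m1.aestronglyMeasurable
    · exact Filter.Eventually.of_forall fun q => by
        simp only [Real.norm_eq_abs]; exact hLb _
  -- the main part
  have hmain : |∫ p, F p * ((Ph phi (s p/ε) - Ph phi (s p/b))/s p)| ≤ |C| * NN := by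
    have e := fub h hε n F hFi
    have e' : ∫ p, F p * ((Ph phi (s p/ε) - Ph phi (s p/b))/s p) =
      ∫ t in (1:ℝ)..2, ∫ p, F p * ww phi ε n t (p.1 + p.2.1 + p.2.2) := e
    rw [e']
    have := intervalIntegral.norm_integral_le_of_norm_le_const (a := (1:ℝ)) (b := 2) (C := |C| * NN)
      (f := fun t => ∫ p, F p * ww phi ε n t (p.1 + p.2.1 + p.2.2)) (fun t _ => by
        rw [Real.norm_eq_abs]
        refine (tbound h hC hf hg hk hε n t).trans ?_
        exact mul_le_mul_of_nonneg_right (le_abs_self C) hNN0)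
    rw [Real.norm_eq_abs] at this
    refine this.trans (le_of_eq ?_)
    norm_num
  -- comparison
  have hdiff : |Ph phi 2 * (∫ p, F p * trunc ε N (s p)) -
      ∫ p, F p * ((Ph phi (s p/ε) - Ph phi (s p/b))/s p)| ≤ 48 * M * NN := by
    rw [← integral_const_mul, ← integral_sub (hT.const_mul _) hL]
    refine (abs_integral_le_integral_abs).trans ?_
    have hb' : ∫ p, |Ph phi 2 * (F p * trunc ε N (s p)) - F p * ((Ph phi (s p/ε) - Ph phi (s p/b))/s p)| ≤
        ∫ p, (6 * M) * (|F p| * (if |s p| ≤ 2*ε then ε⁻¹ else 0) + |F p| * (if |s p| ≤ 2*b then b⁻¹ else 0)) := by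
      refine integral_mono (((hT.const_mul _).sub hL).abs) (((hIm _ _).add (hIm _ _)).const_mul _) fun p => ?_
      simp only
      have : Ph phi 2 * (F p * trunc ε N (s p)) - F p * ((Ph phi (s p/ε) - Ph phi (s p/b))/s p) =
          F p * (Ph phi 2 * trunc ε N (s p) - (Ph phi (s p/ε) - Ph phi (s p/b))/s p) := by ring
      rw [this, abs_mul]
      calc _ ≤ |F p| * (6 * M * ((if |s p| ≤ 2*ε then ε⁻¹ else 0) + (if |s p| ≤ 2*b then b⁻¹ else 0))) :=
            mul_le_mul_of_nonneg_left (herr p) (abs_nonneg _)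
        _ = _ := by ring
    refine hb'.trans ?_
    rw [integral_const_mul, integral_add (hIm _ _) (hIm _ _)]
    have h1 := holderK hf hg hk ε hε
    have h2 := holderK hf hg hk b hb0
    have h6 : 0 ≤ 6 * M := by linarith
    calc _ ≤ 6 * M * (4 * NN + 4 * NN) := mul_le_mul_of_nonneg_left (add_le_add h1 h2) h6
      _ = _ := by ring
  have hP : 0 < |Ph phi 2| := abs_pos.mpr hc
  rw [div_mul_eq_mul_div, le_div_iff₀ hP]
  have e9 : |Ph phi 2| * |∫ p, F p * trunc ε N (s p)| ≤ (|C| + 48 * M) * NN := by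
    rw [← abs_mul]
    have := abs_sub_abs_le_abs_sub (Ph phi 2 * (∫ p, F p * trunc ε N (s p)))
      (∫ p, F p * ((Ph phi (s p/ε) - Ph phi (s p/b))/s p))
    linarith
  rw [mul_comm]
  exact e9

end Pool.Agent.CTH
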