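import Mathlib
import Pool.Agent.CTH.Z3a

open MeasureTheory Finset
open scoped ENNReal

namespace Pool.Agent.CTH

open Helper912.Z

/-- bounded measurable with compact support on `ℝ³` (every test function is one) -/
structure Good4 (f : ℝ × ℝ × ℝ → ℝ) : Prop where
  meas : Measurable f
  supp : HasCompactSupport f
  bdd : ∃ M : ℝ, ∀ p, |f p| ≤ M

/-- integrand of the 4-linear form -/
def F4 (f g h k : ℝ × ℝ × ℝ → ℝ) (p : ℝ × ℝ × ℝ × ℝ) : ℝ :=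
  f (p.1, p.2.1, p.2.2.1) * g (p.2.1, p.2.2.1, p.2.2.2) * h (p.2.2.1, p.2.2.2, p.1) *
    k (p.2.2.2, p.1, p.2.1)

/-- the truncated 4-linear simplex Hilbert form -/
noncomputable def Lam4 (ε N : ℝ) (f g h k : ℝ × ℝ × ℝ → ℝ) : ℝ :=
  ∫ p : ℝ × ℝ × ℝ × ℝ, F4 f g h k p * trunc ε N (p.1 + p.2.1 + p.2.2.1 + p.2.2.2)

/-- pairwise structured function -/
def tri (a b c : ℝ × ℝ → ℝ) (p : ℝ × ℝ × ℝ) : ℝ := a (p.1, p.2.1) * b (p.2.1, p.2.2) * c (p.2.2, p.1)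

/-- the bound of the triangular form -/
def B3 (C : ℝ) : Prop := ∀ f g k : ℝ × ℝ → ℝ, Good f → Good g → Good k → ∀ ε N : ℝ, 0 < ε → ε < N →
      |∫ p : ℝ × ℝ × ℝ, F3 f g k p * trunc ε N (p.1 + p.2.1 + p.2.2)| ≤ C * (N3 f * N3 g * N3 k)

theorem good_translate {f : ℝ × ℝ → ℝ} (hf : Good f) (a : ℝ × ℝ) :
    Good (fun q => f (q + a)) ∧ N3 (fun q => f (q + a)) = N3 f := by
  refine ⟨⟨?_, ?_, ?_⟩, ?_⟩
  · exact hf.meas.comp (measurable_add_const a)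
  · exact hf.supp.comp_homeomorph (Homeomorph.addRight a)
  · obtain ⟨M, hM⟩ := hf.bdd
    exact ⟨M, fun p => hM _⟩
  · unfold N3
    congr 1
    exact eLpNorm_comp_measurePreserving hf.meas.aestronglyMeasurable
      (measurePreserving_add_right volume a)

/-- TARGET -/
theorem shift {C : ℝ} (hC : B3 C) {f g k : ℝ × ℝ → ℝ} (hf : Good f) (hg : Good g) (hk : Good k)
    (ε N : ℝ) (hε : 0 < ε) (hN : ε < N) (v : ℝ) :
    |∫ p : ℝ × ℝ × ℝ, F3 f g k p * trunc ε N (p.1 + p.2.1 + p.2.2 + v)| ≤ C * (N3 f * N3 g * N3 k) := by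
  obtain ⟨hf1, hf2⟩ := good_translate hf (-v, 0)
  obtain ⟨hk1, hk2⟩ := good_translate hk (0, -v)
  have h := hC _ _ _ hf1 hg hk1 ε N hε hN
  rw [hf2, hk2] at h
  haveI i2 : (volume : Measure (ℝ × ℝ)).IsAddLeftInvariant := inferInstance
  haveI i3 : ((volume : Measure ℝ).prod (volume : Measure (ℝ × ℝ))).IsAddLeftInvariant :=
    inferInstance
  haveI i4 : (volume : Measure (ℝ × ℝ × ℝ)).IsAddLeftInvariant := i3
  haveI i5 : (volume : Measure (ℝ × ℝ × ℝ)).IsAddRightInvariant := inferInstance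
  have e := integral_add_right_eq_self (μ := (volume : Measure (ℝ × ℝ × ℝ)))
    (fun p : ℝ × ℝ × ℝ => F3 f g k p * trunc ε N (p.1 + p.2.1 + p.2.2 + v)) ((-v, 0, 0) : ℝ × ℝ × ℝ)
  rw [← e]
  refine le_trans (le_of_eq ?_) h
  congr 2
  funext p
  obtain ⟨x, y, z⟩ := p
  simp only [F3, Prod.mk_add_mk, add_zero]
  have : x + -v + y + z + v = x + y + z := by ring
  rw [this]

theorem F4_fub_trunc_meas (ε N : ℝ) : Measurable (trunc ε N) := by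
  unfold trunc
  refine Measurable.ite ?_ measurable_inv measurable_const
  exact (measurableSet_lt measurable_const continuous_abs.measurable).inter
    (measurableSet_lt continuous_abs.measurable measurable_const)

theorem F4_fub_trunc_le (ε N s : ℝ) (hε : 0 < ε) : |trunc ε N s| ≤ ε⁻¹ := by
  unfold trunc
  split_ifs with h
  · rw [abs_inv]
    exact inv_anti₀ hε h.1.le
  · rw [abs_zero]
    positivity

theorem F4_fub_int {a b c : ℝ × ℝ → ℝ} (ha : Measurable a) (hb : Measurable b) (hc : Measurable c)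
    (ha1 : ∀ p, |a p| ≤ 1) (hb1 : ∀ p, |b p| ≤ 1) (hc1 : ∀ p, |c p| ≤ 1)
    {g h k : ℝ × ℝ × ℝ → ℝ} (hg : Good4 g) (hh : Good4 h) (hk : Good4 k)
    (ε N : ℝ) (hε : 0 < ε) :
    Measurable (fun p : ℝ × ℝ × ℝ × ℝ =>
      F4 (tri a b c) g h k p * trunc ε N (p.1 + p.2.1 + p.2.2.1 + p.2.2.2)) ∧
    Integrable (fun p : ℝ × ℝ × ℝ × ℝ =>
      F4 (tri a b c) g h k p * trunc ε N (p.1 + p.2.1 + p.2.2.1 + p.2.2.2)) volume := by
  have hmeas : Measurable (fun p : ℝ × ℝ × ℝ × ℝ =>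
      F4 (tri a b c) g h k p * trunc ε N (p.1 + p.2.1 + p.2.2.1 + p.2.2.2)) := by
    refine Measurable.mul ?_ ((F4_fub_trunc_meas ε N).comp (by fun_prop))
    unfold F4 tri
    refine ((Measurable.mul ?_ (hg.meas.comp (by fun_prop))).mul
      (hh.meas.comp (by fun_prop))).mul (hk.meas.comp (by fun_prop))
    exact ((ha.comp (by fun_prop)).mul (hb.comp (by fun_prop))).mul (hc.comp (by fun_prop))
  refine ⟨hmeas, ?_⟩
  obtain ⟨Mg, hMg⟩ := hg.bdd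
  obtain ⟨Mh, hMh⟩ := hh.bdd
  obtain ⟨Mk, hMk⟩ := hk.bdd
  obtain ⟨Rg, hRg⟩ := hg.supp.isBounded.subset_closedBall (0 : ℝ × ℝ × ℝ)
  obtain ⟨Rk, hRk⟩ := hk.supp.isBounded.subset_closedBall (0 : ℝ × ℝ × ℝ)
  have hsg : ∀ p : ℝ × ℝ × ℝ, g p ≠ 0 → |p.1| ≤ Rg ∧ |p.2.1| ≤ Rg ∧ |p.2.2| ≤ Rg := by
    intro p hp
    have h1 := hRg (subset_tsupport g hp)
    rw [mem_closedBall_zero_iff, Prod.norm_def, Prod.norm_def] at h1
    have h2 := (max_le_iff.mp h1).1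
    have h3 := max_le_iff.mp (max_le_iff.mp h1).2
    exact ⟨h2, h3.1, h3.2⟩
  have hsk : ∀ p : ℝ × ℝ × ℝ, k p ≠ 0 → |p.1| ≤ Rk ∧ |p.2.1| ≤ Rk ∧ |p.2.2| ≤ Rk := by
    intro p hp
    have h1 := hRk (subset_tsupport k hp)
    rw [mem_closedBall_zero_iff, Prod.norm_def, Prod.norm_def] at h1
    have h2 := (max_le_iff.mp h1).1
    have h3 := max_le_iff.mp (max_le_iff.mp h1).2
    exact ⟨h2, h3.1, h3.2⟩
  have hsupp : Function.support (fun p : ℝ × ℝ × ℝ × ℝ =>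
      F4 (tri a b c) g h k p * trunc ε N (p.1 + p.2.1 + p.2.2.1 + p.2.2.2))
      ⊆ Metric.closedBall (0 : ℝ × ℝ × ℝ × ℝ) (max Rg Rk) := by
    intro p hp
    have h0 : F4 (tri a b c) g h k p ≠ 0 := left_ne_zero_of_mul hp
    unfold F4 at h0
    have hk0 := right_ne_zero_of_mul h0
    have hg0 := right_ne_zero_of_mul (left_ne_zero_of_mul (left_ne_zero_of_mul h0))
    have e1 := hsg _ hg0
    have e2 := hsk _ hk0
    simp only at e1 e2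
    rw [mem_closedBall_zero_iff, Prod.norm_def, Prod.norm_def, Prod.norm_def]
    refine max_le ?_ (max_le ?_ (max_le ?_ ?_))
    · exact e2.2.1.trans (le_max_right _ _)
    · exact e1.1.trans (le_max_left _ _)
    · exact e1.2.1.trans (le_max_left _ _)
    · exact e1.2.2.trans (le_max_left _ _)
  rw [← integrableOn_iff_integrable_of_support_subset hsupp]
  refine Measure.integrableOn_of_bounded (M := |Mg| * |Mh| * |Mk| * ε⁻¹)
    (measure_closedBall_lt_top).ne hmeas.aestronglyMeasurable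
    (Filter.Eventually.of_forall fun p => ?_)
  rw [Real.norm_eq_abs, abs_mul]
  unfold F4 tri
  have t1 := ha1 (p.1, p.2.1)
  have t2 := hb1 (p.2.1, p.2.2.1)
  have t3 := hc1 (p.2.2.1, p.1)
  have t4 := (hMg (p.2.1, p.2.2.1, p.2.2.2)).trans (le_abs_self Mg)
  have t5 := (hMh (p.2.2.1, p.2.2.2, p.1)).trans (le_abs_self Mh)
  have t6 := (hMk (p.2.2.2, p.1, p.2.1)).trans (le_abs_self Mk)
  have t7 := F4_fub_trunc_le ε N (p.1 + p.2.1 + p.2.2.1 + p.2.2.2) hε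
  rw [abs_mul, abs_mul, abs_mul, abs_mul, abs_mul]
  have u1 : |a (p.1, p.2.1)| * |b (p.2.1, p.2.2.1)| * |c (p.2.2.1, p.1)| ≤ 1 := by
    calc |a (p.1, p.2.1)| * |b (p.2.1, p.2.2.1)| * |c (p.2.2.1, p.1)| ≤ 1 * 1 * 1 := by
          gcongr
      _ = 1 := by norm_num
  calc |a (p.1, p.2.1)| * |b (p.2.1, p.2.2.1)| * |c (p.2.2.1, p.1)| *
        |g (p.2.1, p.2.2.1, p.2.2.2)| * |h (p.2.2.1, p.2.2.2, p.1)| *
        |k (p.2.2.2, p.1, p.2.1)| * |trunc ε N (p.1 + p.2.1 + p.2.2.1 + p.2.2.2)|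
      ≤ 1 * |Mg| * |Mh| * |Mk| * ε⁻¹ := by
        gcongr
    _ = |Mg| * |Mh| * |Mk| * ε⁻¹ := by ring

/-- TARGET -/
theorem F4_fub {a b c : ℝ × ℝ → ℝ} (ha : Measurable a) (hb : Measurable b) (hc : Measurable c)
    (ha1 : ∀ p, |a p| ≤ 1) (hb1 : ∀ p, |b p| ≤ 1) (hc1 : ∀ p, |c p| ≤ 1)
    {g h k : ℝ × ℝ × ℝ → ℝ} (hg : Good4 g) (hh : Good4 h) (hk : Good4 k)
    (ε N : ℝ) (hε : 0 < ε) (hN : ε < N) :
    Lam4 ε N (tri a b c) g h k = ∫ w : ℝ, ∫ q : ℝ × ℝ × ℝ,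
      F3 (fun p => a p * k (w, p.1, p.2)) (fun p => b p * g (p.1, p.2, w))
        (fun p => c p * h (p.1, w, p.2)) q * trunc ε N (q.1 + q.2.1 + q.2.2 + w) := by
  obtain ⟨hmeas, hint⟩ := F4_fub_int ha hb hc ha1 hb1 hc1 hg hh hk ε N hε
  unfold Lam4
  set I : ℝ × ℝ × ℝ × ℝ → ℝ := fun p =>
    F4 (tri a b c) g h k p * trunc ε N (p.1 + p.2.1 + p.2.2.1 + p.2.2.2) with hI
  let e : ℝ × ℝ × ℝ × ℝ → ℝ × ℝ × ℝ × ℝ := fun r => (r.2.1, r.2.2.1, r.2.2.2, r.1)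
  have e1 : MeasurePreserving (Prod.swap : ℝ × (ℝ × ℝ × ℝ) → (ℝ × ℝ × ℝ) × ℝ) volume volume :=
    Measure.measurePreserving_swap
  have e2 : MeasurePreserving (MeasurableEquiv.prodAssoc : (ℝ × (ℝ × ℝ)) × ℝ ≃ᵐ ℝ × ((ℝ × ℝ) × ℝ))
      volume volume := volume_preserving_prodAssoc
  have e3' : MeasurePreserving (MeasurableEquiv.prodAssoc : (ℝ × ℝ) × ℝ ≃ᵐ ℝ × (ℝ × ℝ))
      volume volume := volume_preserving_prodAssoc
  have e3 : MeasurePreserving (Prod.map (id : ℝ → ℝ)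
      (MeasurableEquiv.prodAssoc : (ℝ × ℝ) × ℝ ≃ᵐ ℝ × (ℝ × ℝ))) volume volume :=
    (MeasurePreserving.id volume).prod e3'
  have he : MeasurePreserving e volume volume := e3.comp (e2.comp e1)
  have h1 : ∫ p, I p = ∫ r, I (e r) := by
    conv_lhs => rw [← he.map_eq]
    exact integral_map he.measurable.aemeasurable hmeas.aestronglyMeasurable
  have h2 : Integrable (fun r => I (e r)) (volume : Measure (ℝ × ℝ × ℝ × ℝ)) :=
    (he.integrable_comp hmeas.aestronglyMeasurable).mpr hint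
  rw [h1]
  have h3 : ∫ r : ℝ × ℝ × ℝ × ℝ, I (e r) = ∫ w : ℝ, ∫ q : ℝ × ℝ × ℝ, I (e (w, q)) :=
    integral_prod _ h2
  rw [h3]
  congr 1
  funext w
  congr 1
  funext q
  simp only [hI, e, F4, F3, tri]
  ring

theorem sect_aux924 {a : ℝ × ℝ → ℝ} (ha : Measurable a) (ha1 : ∀ p, |a p| ≤ 1) {g : ℝ × ℝ × ℝ → ℝ} (hg : Good4 g)
    (φ : ℝ × ℝ → ℝ × ℝ × ℝ) (hφ : Measurable φ) (hn : ∀ p, ‖p‖ ≤ ‖φ p‖) :
    Good (fun p => a p * g (φ p)) := by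
  obtain ⟨M, hM⟩ := hg.bdd
  have hM0 : 0 ≤ M := le_trans (abs_nonneg _) (hM 0)
  refine ⟨ha.mul (hg.meas.comp hφ), ?_, ⟨M, fun p => ?_⟩⟩
  · obtain ⟨R, hR⟩ := hg.supp.isCompact.isBounded.subset_closedBall (0 : ℝ × ℝ × ℝ)
    refine HasCompactSupport.of_support_subset_isCompact (isCompact_closedBall (0 : ℝ × ℝ) R) ?_
    intro p hp
    have h1 : g (φ p) ≠ 0 := fun h => hp (by simp [h])
    have h2 := hR (subset_tsupport g h1)
    rw [mem_closedBall_zero_iff] at h2 ⊢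
    exact (hn p).trans h2
  · rw [abs_mul]
    calc |a p| * |g (φ p)| ≤ 1 * M := mul_le_mul (ha1 p) (hM _) (abs_nonneg _) zero_le_one
      _ = M := one_mul M

/-- TARGET -/
theorem sect {a : ℝ × ℝ → ℝ} (ha : Measurable a) (ha1 : ∀ p, |a p| ≤ 1) {g : ℝ × ℝ × ℝ → ℝ} (hg : Good4 g) (w : ℝ) :
    Good (fun p => a p * g (w, p.1, p.2)) ∧ Good (fun p => a p * g (p.1, p.2, w)) ∧
      Good (fun p => a p * g (p.1, w, p.2)) := by
  refine ⟨sect_aux924 ha ha1 hg (fun p => (w, p.1, p.2)) (by fun_prop) (fun p => ?_),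
    sect_aux924 ha ha1 hg (fun p => (p.1, p.2, w)) (by fun_prop) (fun p => ?_),
    sect_aux924 ha ha1 hg (fun p => (p.1, w, p.2)) (by fun_prop) (fun p => ?_)⟩ <;>
  · simp only [Prod.norm_def]
    first
      | exact le_max_right _ _
      | exact max_le (le_max_left _ _) ((le_max_left _ _).trans (le_max_right _ _))
      | exact max_le (le_max_left _ _) ((le_max_right _ _).trans (le_max_right _ _))

theorem sect_le {a : ℝ × ℝ → ℝ} (ha : Measurable a) (ha1 : ∀ p, |a p| ≤ 1) (g : ℝ × ℝ → ℝ) :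
    eLpNorm (fun p => a p * g p) 3 volume ≤ eLpNorm g 3 volume := by
  refine eLpNorm_mono fun p => ?_
  rw [norm_mul]
  calc ‖a p‖ * ‖g p‖ ≤ 1 * ‖g p‖ :=
        mul_le_mul_of_nonneg_right (by simpa [Real.norm_eq_abs] using ha1 p) (norm_nonneg _)
    _ = ‖g p‖ := one_mul _

theorem hw_L1 (H : ℝ × ℝ × ℝ → ℝ≥0∞) (hH : Measurable H) :
    ∫⁻ w : ℝ, ∫⁻ p : ℝ × ℝ, H (w, p.1, p.2) = ∫⁻ q, H q := by
  rw [Measure.volume_eq_prod ℝ (ℝ × ℝ), lintegral_prod _ hH.aemeasurable]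

theorem hw_3 (H : ℝ × ℝ × ℝ → ℝ≥0∞) (hH : Measurable H) :
    ∫⁻ q, H q = ∫⁻ x : ℝ, ∫⁻ y : ℝ, ∫⁻ z : ℝ, H (x, y, z) := by
  rw [Measure.volume_eq_prod ℝ (ℝ × ℝ), lintegral_prod _ hH.aemeasurable]
  refine lintegral_congr (fun x => ?_)
  rw [Measure.volume_eq_prod ℝ ℝ, lintegral_prod _ (by fun_prop)]

theorem hw_L2 (H : ℝ × ℝ × ℝ → ℝ≥0∞) (hH : Measurable H) :
    ∫⁻ w : ℝ, ∫⁻ p : ℝ × ℝ, H (p.1, p.2, w) = ∫⁻ q, H q := by
  rw [lintegral_lintegral_swap (f := fun (w : ℝ) (p : ℝ × ℝ) => H (p.1, p.2, w))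
    (by
      have : Measurable (Function.uncurry fun (w : ℝ) (p : ℝ × ℝ) => H (p.1, p.2, w)) := by
        unfold Function.uncurry
        fun_prop
      exact this.aemeasurable)]
  rw [hw_3 H hH, Measure.volume_eq_prod ℝ ℝ, lintegral_prod]
  have : Measurable (fun z : ℝ × ℝ => ∫⁻ y : ℝ, H (z.1, z.2, y)) := by
    apply Measurable.lintegral_prod_right' (f := fun (q : (ℝ × ℝ) × ℝ) => H (q.1.1, q.1.2, q.2))
    fun_prop
  exact this.aemeasurable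

theorem hw_L3 (H : ℝ × ℝ × ℝ → ℝ≥0∞) (hH : Measurable H) :
    ∫⁻ w : ℝ, ∫⁻ p : ℝ × ℝ, H (p.1, w, p.2) = ∫⁻ q, H q := by
  have h1 : ∫⁻ w : ℝ, ∫⁻ p : ℝ × ℝ, H (p.1, w, p.2) =
      ∫⁻ q, (fun q : ℝ × ℝ × ℝ => H (q.1, q.2.2, q.2.1)) q := by
    rw [← hw_L2 (fun q : ℝ × ℝ × ℝ => H (q.1, q.2.2, q.2.1)) (by fun_prop)]
  rw [h1, hw_3 _ (by fun_prop), hw_3 H hH]
  refine lintegral_congr (fun x => ?_)
  rw [lintegral_lintegral_swap]
  have : Measurable (Function.uncurry fun (y : ℝ) (z : ℝ) => H (x, z, y)) := by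
    unfold Function.uncurry
    fun_prop
  exact this.aemeasurable

/-- TARGET -/
theorem hold_w {g h k : ℝ × ℝ × ℝ → ℝ} (hg : Measurable g) (hh : Measurable h) (hk : Measurable k) :
    ∫⁻ w : ℝ, eLpNorm (fun p : ℝ × ℝ => k (w, p.1, p.2)) 3 volume *
        eLpNorm (fun p : ℝ × ℝ => g (p.1, p.2, w)) 3 volume *
        eLpNorm (fun p : ℝ × ℝ => h (p.1, w, p.2)) 3 volume ≤
      eLpNorm k 3 volume * eLpNorm g 3 volume * eLpNorm h 3 volume := by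
  have e3 : ∀ {α : Type} [MeasureSpace α] (u : α → ℝ), eLpNorm u 3 volume =
      (∫⁻ x, ‖u x‖ₑ ^ (3 : ℝ)) ^ (1 / 3 : ℝ) := by
    intro α _ u
    rw [eLpNorm_eq_lintegral_rpow_enorm_toReal (by norm_num) (by norm_num)]
    simp
  simp only [e3]
  have hkm : Measurable (fun q : ℝ × ℝ × ℝ => ‖k q‖ₑ ^ (3 : ℝ)) := by fun_prop
  have hgm : Measurable (fun q : ℝ × ℝ × ℝ => ‖g q‖ₑ ^ (3 : ℝ)) := by fun_prop
  have hhm : Measurable (fun q : ℝ × ℝ × ℝ => ‖h q‖ₑ ^ (3 : ℝ)) := by fun_prop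
  rw [← hw_L1 _ hkm, ← hw_L2 _ hgm, ← hw_L3 _ hhm]
  have m1 : Measurable (fun w : ℝ => ∫⁻ p : ℝ × ℝ, ‖k (w, p.1, p.2)‖ₑ ^ (3 : ℝ)) := by
    apply Measurable.lintegral_prod_right' (f := fun (q : ℝ × (ℝ × ℝ)) =>
      ‖k (q.1, q.2.1, q.2.2)‖ₑ ^ (3 : ℝ))
    fun_prop
  have m2 : Measurable (fun w : ℝ => ∫⁻ p : ℝ × ℝ, ‖g (p.1, p.2, w)‖ₑ ^ (3 : ℝ)) := by
    apply Measurable.lintegral_prod_right' (f := fun (q : ℝ × (ℝ × ℝ)) =>
      ‖g (q.2.1, q.2.2, q.1)‖ₑ ^ (3 : ℝ))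
    fun_prop
  have m3 : Measurable (fun w : ℝ => ∫⁻ p : ℝ × ℝ, ‖h (p.1, w, p.2)‖ₑ ^ (3 : ℝ)) := by
    apply Measurable.lintegral_prod_right' (f := fun (q : ℝ × (ℝ × ℝ)) =>
      ‖h (q.2.1, q.1, q.2.2)‖ₑ ^ (3 : ℝ))
    fun_prop
  have key := ENNReal.lintegral_prod_norm_pow_le (μ := (volume : Measure ℝ))
    (Finset.univ : Finset (Fin 3))
    (f := ![fun w : ℝ => ∫⁻ p : ℝ × ℝ, ‖k (w, p.1, p.2)‖ₑ ^ (3 : ℝ),
      fun w : ℝ => ∫⁻ p : ℝ × ℝ, ‖g (p.1, p.2, w)‖ₑ ^ (3 : ℝ),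
      fun w : ℝ => ∫⁻ p : ℝ × ℝ, ‖h (p.1, w, p.2)‖ₑ ^ (3 : ℝ)])
    (by
      intro i _
      fin_cases i
      · exact m1.aemeasurable
      · exact m2.aemeasurable
      · exact m3.aemeasurable)
    (p := fun _ => (1 / 3 : ℝ)) (by simp) (by intro i _; norm_num)
  simp only [Fin.prod_univ_three, Matrix.cons_val_zero, Matrix.cons_val_one,
    Matrix.cons_val_two, Matrix.cons_val] at key
  exact key

theorem eLp4_lt {f : ℝ × ℝ × ℝ → ℝ} (hf : Good4 f) (q : ℝ≥0∞) : eLpNorm f q volume < ⊤ := by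
  have hK : IsCompact (tsupport f) := hf.supp
  obtain ⟨M, hM⟩ := hf.bdd
  haveI : IsFiniteMeasure ((volume : Measure (ℝ × ℝ × ℝ)).restrict (tsupport f)) :=
    ⟨by rw [Measure.restrict_apply_univ]; exact hK.measure_lt_top⟩
  rw [← eLpNorm_restrict_eq_of_support_subset (subset_tsupport f)]
  refine (MemLp.of_bound hf.meas.aestronglyMeasurable M
    (Filter.Eventually.of_forall fun p => ?_)).2
  simpa using hM p

/-- the L^∞ × L^3 × L^3 × L^3 bound for structured functions -/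
theorem T1 {C : ℝ} (hC0 : 0 ≤ C) (hC : B3 C) {a b c : ℝ × ℝ → ℝ} (ha : Measurable a) (hb : Measurable b) (hc : Measurable c)
    (ha1 : ∀ p, |a p| ≤ 1) (hb1 : ∀ p, |b p| ≤ 1) (hc1 : ∀ p, |c p| ≤ 1)
    {g h k : ℝ × ℝ × ℝ → ℝ} (hg : Good4 g) (hh : Good4 h) (hk : Good4 k)
    (ε N : ℝ) (hε : 0 < ε) (hN : ε < N) :
    ENNReal.ofReal |Lam4 ε N (tri a b c) g h k| ≤
      ENNReal.ofReal C * (eLpNorm k 3 volume * eLpNorm g 3 volume * eLpNorm h 3 volume) := by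
  rw [F4_fub ha hb hc ha1 hb1 hc1 hg hh hk ε N hε hN]
  rw [← Real.enorm_eq_ofReal_abs]
  refine (enorm_integral_le_lintegral_enorm _).trans ?_
  have h1 : ∀ w : ℝ, ‖∫ q : ℝ × ℝ × ℝ, F3 (fun p => a p * k (w, p.1, p.2)) (fun p => b p * g (p.1, p.2, w))
        (fun p => c p * h (p.1, w, p.2)) q * trunc ε N (q.1 + q.2.1 + q.2.2 + w)‖ₑ ≤
      ENNReal.ofReal C * (eLpNorm (fun p : ℝ × ℝ => k (w, p.1, p.2)) 3 volume *
        eLpNorm (fun p : ℝ × ℝ => g (p.1, p.2, w)) 3 volume *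
        eLpNorm (fun p : ℝ × ℝ => h (p.1, w, p.2)) 3 volume) := by
    intro w
    have g1 := (sect ha ha1 hk w).1
    have g2 := (sect hb hb1 hg w).2.1
    have g3 := (sect hc hc1 hh w).2.2
    rw [Real.enorm_eq_ofReal_abs]
    refine (ENNReal.ofReal_le_ofReal (shift hC g1 g2 g3 ε N hε hN w)).trans ?_
    rw [ENNReal.ofReal_mul hC0, ENNReal.ofReal_mul (mul_nonneg (N3_nonneg _) (N3_nonneg _)),
      ENNReal.ofReal_mul (N3_nonneg _)]
    unfold N3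
    rw [ENNReal.ofReal_toReal (eLp_lt g1).ne, ENNReal.ofReal_toReal (eLp_lt g2).ne,
      ENNReal.ofReal_toReal (eLp_lt g3).ne]
    gcongr
    · exact sect_le ha ha1 _
    · exact sect_le hb hb1 _
    · exact sect_le hc hc1 _
  refine (lintegral_mono h1).trans ?_
  rw [lintegral_const_mul' _ _ ENNReal.ofReal_ne_top]
  gcongr
  exact hold_w hg.meas hh.meas hk.meas

end Pool.Agent.CTH
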