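import Mathlib
import Pool.Agent.CTH.Four

open MeasureTheory Finset
open scoped ENNReal

namespace Pool.Agent.CTH

open Helper912.Z

/-- the interval `[q, q + L]` -/
def InI (q L x : ℝ) : Prop := q ≤ x ∧ x ≤ q + L

theorem F4_int {f : ℝ × ℝ × ℝ → ℝ} (hf : Measurable f) (hf1 : ∃ M : ℝ, ∀ p, |f p| ≤ M)
    {g h k : ℝ × ℝ × ℝ → ℝ} (hg : Good4 g) (hh : Good4 h) (hk : Good4 k)
    (ε N : ℝ) (hε : 0 < ε) :
    Integrable (fun p : ℝ × ℝ × ℝ × ℝ => F4 f g h k p * trunc ε N (p.1 + p.2.1 + p.2.2.1 + p.2.2.2)) volume := by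
  obtain ⟨Mf, hMf⟩ := hf1
  obtain ⟨Mg, hMg⟩ := hg.bdd
  obtain ⟨Mh, hMh⟩ := hh.bdd
  obtain ⟨Mk, hMk⟩ := hk.bdd
  have hMf0 : 0 ≤ Mf := (abs_nonneg _).trans (hMf 0)
  have hMg0 : 0 ≤ Mg := (abs_nonneg _).trans (hMg 0)
  have hMh0 : 0 ≤ Mh := (abs_nonneg _).trans (hMh 0)
  have hMk0 : 0 ≤ Mk := (abs_nonneg _).trans (hMk 0)
  have hbd : ∀ {u : ℝ × ℝ × ℝ → ℝ}, Good4 u → ∃ R : ℝ, ∀ p, u p ≠ 0 → |p.1| ≤ R ∧ |p.2.1| ≤ R ∧ |p.2.2| ≤ R := by
    intro u hu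
    obtain ⟨R, hR⟩ := hu.supp.isCompact.isBounded.subset_closedBall (0 : ℝ × ℝ × ℝ)
    refine ⟨R, fun p hp => ?_⟩
    have h1 : p ∈ Metric.closedBall (0 : ℝ × ℝ × ℝ) R := hR (subset_tsupport u hp)
    rw [mem_closedBall_zero_iff] at h1
    obtain ⟨a, b, c⟩ := p
    rw [Prod.norm_mk, Prod.norm_mk, max_le_iff, max_le_iff] at h1
    simpa [Real.norm_eq_abs] using h1
  obtain ⟨Rg, hRg⟩ := hbd hg
  obtain ⟨Rh, hRh⟩ := hbd hh
  have htr : Measurable (fun s => trunc ε N s) := by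
    unfold trunc
    have ha : Measurable (fun s : ℝ => |s|) := measurable_abs
    refine Measurable.ite ?_ measurable_inv measurable_const
    exact (measurableSet_lt measurable_const ha).inter (measurableSet_lt ha measurable_const)
  have hmeas : Measurable (fun p : ℝ × ℝ × ℝ × ℝ => F4 f g h k p * trunc ε N (p.1 + p.2.1 + p.2.2.1 + p.2.2.2)) := by
    refine Measurable.mul ?_ (htr.comp (by fun_prop))
    unfold F4
    exact (((hf.comp (by fun_prop)).mul (hg.meas.comp (by fun_prop))).mul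
      (hh.meas.comp (by fun_prop))).mul (hk.meas.comp (by fun_prop))
  have htb : ∀ s, |trunc ε N s| ≤ ε⁻¹ := by
    intro s
    unfold trunc
    split_ifs with hs
    · rw [abs_inv]
      exact inv_anti₀ hε hs.1.le
    · rw [abs_zero]
      positivity
  have hsupp : Function.support (fun p : ℝ × ℝ × ℝ × ℝ => F4 f g h k p * trunc ε N (p.1 + p.2.1 + p.2.2.1 + p.2.2.2)) ⊆
      Metric.closedBall (0 : ℝ × ℝ × ℝ × ℝ) (max Rg Rh) := by
    intro p hp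
    rw [Function.mem_support] at hp
    have h1 : g (p.2.1, p.2.2.1, p.2.2.2) ≠ 0 := by
      intro h0
      apply hp
      simp [F4, h0]
    have h2 : h (p.2.2.1, p.2.2.2, p.1) ≠ 0 := by
      intro h0
      apply hp
      simp [F4, h0]
    obtain ⟨e1, e2, e3⟩ := hRg _ h1
    obtain ⟨_, _, e4⟩ := hRh _ h2
    obtain ⟨a, b, c, d⟩ := p
    rw [mem_closedBall_zero_iff, Prod.norm_mk, Prod.norm_mk, Prod.norm_mk]
    simp only [Real.norm_eq_abs]
    exact max_le (e4.trans (le_max_right _ _)) (max_le (e1.trans (le_max_left _ _))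
      (max_le (e2.trans (le_max_left _ _)) (e3.trans (le_max_left _ _))))
  rw [← integrableOn_iff_integrable_of_support_subset hsupp]
  refine Measure.integrableOn_of_bounded (M := Mf * Mg * Mh * Mk * ε⁻¹) ?_ hmeas.aestronglyMeasurable ?_
  · exact (isCompact_closedBall _ _).measure_lt_top.ne
  · refine Filter.Eventually.of_forall fun p => ?_
    rw [Real.norm_eq_abs, abs_mul]
    unfold F4
    rw [abs_mul, abs_mul, abs_mul]
    gcongr
    · exact hMf _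
    · exact hMg _
    · exact hMh _
    · exact hMk _
    · exact htb _

theorem W_int_half (L : ℝ) (hL : 0 < L) :
    ∫⁻ u : ℝ, (Set.Ioi (6*L)).indicator (fun u => ENNReal.ofReal (16 * u ^ (-4:ℝ))) u
      = ENNReal.ofReal (16 * ((6*L) ^ (-3:ℝ) / 3)) := by
  have h6 : 0 < 6 * L := by positivity
  rw [lintegral_indicator measurableSet_Ioi]
  have hint : IntegrableOn (fun u : ℝ => 16 * u ^ (-4:ℝ)) (Set.Ioi (6*L)) :=
    (integrableOn_Ioi_rpow_of_lt (by norm_num) h6).const_mul 16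
  rw [← ofReal_integral_eq_lintegral_ofReal hint]
  · congr 1
    rw [integral_const_mul, integral_Ioi_rpow_of_lt (by norm_num) h6]
    norm_num
  · filter_upwards [self_mem_ae_restrict (measurableSet_Ioi (a := 6*L))] with u hu
    have hu' : 0 < u := lt_trans h6 hu
    show (0:ℝ) ≤ 16 * u ^ (-4:ℝ)
    positivity

theorem W_int_pt (L u : ℝ) (hL : 0 < L) :
    (if 6*L < |u| then ENNReal.ofReal (2 / |u|) else 0)^(4:ℝ)
      = (Set.Ioi (6*L)).indicator (fun u => ENNReal.ofReal (16 * u ^ (-4:ℝ))) u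
        + (Set.Ioi (6*L)).indicator (fun u => ENNReal.ofReal (16 * u ^ (-4:ℝ))) (-u) := by
  have h6 : 0 < 6 * L := by positivity
  have key : ∀ v : ℝ, 6 * L < v → (ENNReal.ofReal (2 / v))^(4:ℝ) = ENNReal.ofReal (16 * v ^ (-4:ℝ)) := by
    intro v hv
    have hv0 : 0 < v := lt_trans h6 hv
    rw [ENNReal.ofReal_rpow_of_pos (by positivity)]
    congr 1
    rw [Real.div_rpow (by norm_num) hv0.le, Real.rpow_neg hv0.le]
    have : (2:ℝ) ^ (4:ℝ) = 16 := by norm_num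
    rw [this]
    rfl
  rcases lt_trichotomy u 0 with hu | hu | hu
  · rw [abs_of_neg hu]
    by_cases h : 6 * L < -u
    · rw [if_pos h, key _ h, Set.indicator_of_mem (show -u ∈ Set.Ioi (6*L) from h),
        Set.indicator_of_notMem (show u ∉ Set.Ioi (6*L) from fun h' => by
          have : 6 * L < u := h'
          linarith), zero_add]
    · rw [if_neg h, Set.indicator_of_notMem (show -u ∉ Set.Ioi (6*L) from h),
        Set.indicator_of_notMem (show u ∉ Set.Ioi (6*L) from fun h' => by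
          have : 6 * L < u := h'
          linarith), zero_add, ENNReal.zero_rpow_of_pos (by norm_num)]
  · subst hu
    have h1 : (0:ℝ) ∉ Set.Ioi (6*L) := fun h' => by
      have : 6 * L < 0 := h'
      linarith
    have h2 : ¬ 6 * L < |(0:ℝ)| := by rw [abs_zero]; linarith
    rw [if_neg h2, neg_zero, Set.indicator_of_notMem h1, zero_add,
      ENNReal.zero_rpow_of_pos (by norm_num)]
  · rw [abs_of_pos hu]
    by_cases h : 6 * L < u
    · rw [if_pos h, key _ h, Set.indicator_of_mem (show u ∈ Set.Ioi (6*L) from h),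
        Set.indicator_of_notMem (show -u ∉ Set.Ioi (6*L) from fun h' => by
          have : 6 * L < -u := h'
          linarith), add_zero]
    · rw [if_neg h, Set.indicator_of_notMem (show u ∉ Set.Ioi (6*L) from h),
        Set.indicator_of_notMem (show -u ∉ Set.Ioi (6*L) from fun h' => by
          have : 6 * L < -u := h'
          linarith), zero_add, ENNReal.zero_rpow_of_pos (by norm_num)]

/-- TARGET -/
theorem W_int (q L : ℝ) (hL : 0 < L) :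
    ∫⁻ w : ℝ, (if 6*L < |w + q| then ENNReal.ofReal (2 / |w + q|) else 0)^(4:ℝ) ≤
      ENNReal.ofReal ((L^3)⁻¹) := by
  have h6 : 0 < 6 * L := by positivity
  rw [lintegral_add_right_eq_self
    (fun u : ℝ => (if 6*L < |u| then ENNReal.ofReal (2 / |u|) else 0)^(4:ℝ)) q]
  simp_rw [W_int_pt L _ hL]
  have hm : Measurable (fun u : ℝ => (Set.Ioi (6*L)).indicator
      (fun u => ENNReal.ofReal (16 * u ^ (-4:ℝ))) u) := by
    apply Measurable.indicator _ measurableSet_Ioi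
    fun_prop
  rw [lintegral_add_left hm]
  rw [lintegral_neg_eq_self (fun u : ℝ => (Set.Ioi (6*L)).indicator
      (fun u => ENNReal.ofReal (16 * u ^ (-4:ℝ))) u), W_int_half L hL,
      ← ENNReal.ofReal_add (by positivity) (by positivity)]
  apply ENNReal.ofReal_le_ofReal
  have h1 : (6*L) ^ (-3:ℝ) = (216:ℝ)⁻¹ * (L^3)⁻¹ := by
    rw [Real.rpow_neg h6.le]
    have : (6*L) ^ (3:ℝ) = 216 * L^3 := by
      rw [show (3:ℝ) = ((3:ℕ):ℝ) by norm_num, Real.rpow_natCast]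
      ring
    rw [this, mul_inv]
  rw [h1]
  have h2 : 0 < (L^3)⁻¹ := by positivity
  nlinarith

theorem holder4 (A G H K : ℝ × ℝ × ℝ × ℝ → ℝ≥0∞) (hA : Measurable A) (hG : Measurable G)
    (hH : Measurable H) (hK : Measurable K) :
    ∫⁻ p, A p * G p * H p * K p ≤ (∫⁻ p, A p ^ (4:ℝ)) ^ ((1:ℝ)/4) * (∫⁻ p, G p ^ (4:ℝ)) ^ ((1:ℝ)/4) *
      (∫⁻ p, H p ^ (4:ℝ)) ^ ((1:ℝ)/4) * (∫⁻ p, K p ^ (4:ℝ)) ^ ((1:ℝ)/4) := by
  have key := ENNReal.lintegral_prod_norm_pow_le (μ := (volume : Measure (ℝ × ℝ × ℝ × ℝ)))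
    (Finset.univ : Finset (Fin 4))
    (f := ![fun p => A p ^ (4:ℝ), fun p => G p ^ (4:ℝ), fun p => H p ^ (4:ℝ), fun p => K p ^ (4:ℝ)])
    (p := fun _ => (1:ℝ)/4)
    (by
      intro i _
      fin_cases i
      · exact (hA.pow_const _).aemeasurable
      · exact (hG.pow_const _).aemeasurable
      · exact (hH.pow_const _).aemeasurable
      · exact (hK.pow_const _).aemeasurable)
    (by simp) (by intro i _; norm_num)
  have e : ∀ x : ℝ≥0∞, (x ^ (4:ℝ)) ^ ((1:ℝ)/4) = x := by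
    intro x
    rw [← ENNReal.rpow_mul]
    norm_num
  simp only [Fin.prod_univ_four, Matrix.cons_val_zero, Matrix.cons_val_one, Matrix.cons_val_two,
    Matrix.cons_val_three, Matrix.head_cons, Matrix.tail_cons, Matrix.cons_val] at key
  simp only [e] at key
  exact key

theorem ind_g (q L : ℝ) (hL : 0 < L) (g : ℝ × ℝ × ℝ → ℝ) (hg : Measurable g) :
    ∫⁻ p : ℝ × ℝ × ℝ × ℝ, (Set.indicator {p : ℝ × ℝ × ℝ × ℝ | InI q L p.1}
      (fun p => ‖g (p.2.1, p.2.2.1, p.2.2.2)‖ₑ) p) ^ (4:ℝ) = ENNReal.ofReal L * eLpNorm g 4 volume ^ (4:ℝ) := by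
  have h1 : ∀ p : ℝ × ℝ × ℝ × ℝ, (Set.indicator {p : ℝ × ℝ × ℝ × ℝ | InI q L p.1}
      (fun p => ‖g (p.2.1, p.2.2.1, p.2.2.2)‖ₑ) p) ^ (4:ℝ) =
      (Set.Icc q (q + L)).indicator 1 p.1 * ‖g p.2‖ₑ ^ (4:ℝ) := by
    intro p
    by_cases hp : InI q L p.1
    · rw [Set.indicator_of_mem (show p ∈ {p : ℝ × ℝ × ℝ × ℝ | InI q L p.1} from hp),
        Set.indicator_of_mem (show p.1 ∈ Set.Icc q (q + L) from hp), Pi.one_apply, one_mul]
    · rw [Set.indicator_of_notMem (show p ∉ {p : ℝ × ℝ × ℝ × ℝ | InI q L p.1} from hp),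
        Set.indicator_of_notMem (show p.1 ∉ Set.Icc q (q + L) from hp), zero_mul]
      exact ENNReal.zero_rpow_of_pos (by norm_num)
  rw [lintegral_congr h1, Measure.volume_eq_prod ℝ (ℝ × ℝ × ℝ)]
  rw [lintegral_prod_mul (f := (Set.Icc q (q + L)).indicator 1)
    (g := fun y : ℝ × ℝ × ℝ => ‖g y‖ₑ ^ (4:ℝ))
    ((measurable_one.indicator measurableSet_Icc).aemeasurable)
    ((hg.enorm.pow_const _).aemeasurable)]
  rw [lintegral_indicator_one measurableSet_Icc, Real.volume_Icc, add_sub_cancel_left]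
  congr 1
  have h4 : (4 : ℝ≥0∞).toReal = 4 := by norm_num
  rw [eLpNorm_eq_lintegral_rpow_enorm_toReal (by norm_num) (by norm_num), h4,
    ← ENNReal.rpow_mul]
  norm_num

theorem rot3_aux (ψ : ℝ × ℝ × ℝ → ℝ≥0∞) (hψ : Measurable ψ) :
    ∫⁻ p : ℝ × ℝ × ℝ, ψ p = ∫⁻ x1 : ℝ, ∫⁻ r : ℝ × ℝ, ψ (r.1, r.2, x1) := by
  have h1 : MeasurePreserving (MeasurableEquiv.prodAssoc : (ℝ × ℝ) × ℝ ≃ᵐ ℝ × ℝ × ℝ)
      ((volume : Measure (ℝ × ℝ)).prod (volume : Measure ℝ)) volume :=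
    ⟨MeasurableEquiv.prodAssoc.measurable, by
      show Measure.map MeasurableEquiv.prodAssoc
        (((volume : Measure ℝ).prod (volume : Measure ℝ)).prod (volume : Measure ℝ)) = _
      rw [Measure.prodAssoc_prod]
      rfl⟩
  rw [← h1.lintegral_comp hψ]
  rw [lintegral_prod_symm _ (by
    exact (hψ.comp MeasurableEquiv.prodAssoc.measurable).aemeasurable)]
  rfl

/-- TARGET -/
theorem ind_h (q L : ℝ) (hL : 0 < L) (g : ℝ × ℝ × ℝ → ℝ) (hg : Measurable g) :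
    ∫⁻ p : ℝ × ℝ × ℝ × ℝ, (Set.indicator {p : ℝ × ℝ × ℝ × ℝ | InI q L p.2.1}
      (fun p => ‖g (p.2.2.1, p.2.2.2, p.1)‖ₑ) p) ^ (4:ℝ) = ENNReal.ofReal L * eLpNorm g 4 volume ^ (4:ℝ) := by
  classical
  set ψ : ℝ × ℝ × ℝ → ℝ≥0∞ := fun r => ‖g r‖ₑ ^ (4:ℝ) with hψd
  have hψ : Measurable ψ := by
    simp only [hψd]
    fun_prop
  have hI : MeasurableSet {x : ℝ | InI q L x} := by
    have : {x : ℝ | InI q L x} = Set.Icc q (q + L) := by
      ext x; simp [InI]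
    rw [this]; exact measurableSet_Icc
  set φ : ℝ → ℝ≥0∞ := Set.indicator {x : ℝ | InI q L x} (fun _ => 1) with hφd
  have hφ : Measurable φ := by
    simp only [hφd]
    exact measurable_const.indicator hI
  have hφi : ∫⁻ x, φ x = ENNReal.ofReal L := by
    simp only [hφd]
    rw [lintegral_indicator hI]
    have : {x : ℝ | InI q L x} = Set.Icc q (q + L) := by
      ext x; simp [InI]
    rw [this]
    simp
  have hpt : ∀ p : ℝ × ℝ × ℝ × ℝ, (Set.indicator {p : ℝ × ℝ × ℝ × ℝ | InI q L p.2.1}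
      (fun p => ‖g (p.2.2.1, p.2.2.2, p.1)‖ₑ) p) ^ (4:ℝ) = φ p.2.1 * ψ (p.2.2.1, p.2.2.2, p.1) := by
    intro p
    by_cases h : InI q L p.2.1
    · simp [hφd, hψd, Set.indicator, h]
    · simp [hφd, hψd, Set.indicator, h]
  simp_rw [hpt]
  have hN : eLpNorm g 4 volume ^ (4:ℝ) = ∫⁻ p, ψ p := by
    rw [eLpNorm_eq_lintegral_rpow_enorm_toReal (by norm_num) (by norm_num)]
    simp only [ENNReal.toReal_ofNat, hψd]
    rw [← ENNReal.rpow_mul]
    norm_num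
  rw [hN, rot3_aux ψ hψ]
  have hm : Measurable (fun p : ℝ × ℝ × ℝ × ℝ => φ p.2.1 * ψ (p.2.2.1, p.2.2.2, p.1)) := by
    fun_prop
  have e1 : ∫⁻ p : ℝ × ℝ × ℝ × ℝ, φ p.2.1 * ψ (p.2.2.1, p.2.2.2, p.1) =
      ∫⁻ x1 : ℝ, ∫⁻ p' : ℝ × ℝ × ℝ, φ p'.1 * ψ (p'.2.1, p'.2.2, x1) := by
    exact lintegral_prod (μ := (volume : Measure ℝ)) (ν := (volume : Measure (ℝ × ℝ × ℝ))) _ hm.aemeasurable
  rw [e1]
  have e2 : ∀ x1 : ℝ, ∫⁻ p' : ℝ × ℝ × ℝ, φ p'.1 * ψ (p'.2.1, p'.2.2, x1) =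
      ENNReal.ofReal L * ∫⁻ r : ℝ × ℝ, ψ (r.1, r.2, x1) := by
    intro x1
    rw [← hφi]
    exact lintegral_prod_mul (μ := (volume : Measure ℝ)) (ν := (volume : Measure (ℝ × ℝ)))
      (f := φ) (g := fun r : ℝ × ℝ => ψ (r.1, r.2, x1)) hφ.aemeasurable (by fun_prop)
  simp_rw [e2]
  rw [lintegral_const_mul]
  exact Measurable.lintegral_prod_right' (f := fun z : ℝ × (ℝ × ℝ) => ψ (z.2.1, z.2.2, z.1)) (by fun_prop)

theorem ind_k (q L : ℝ) (hL : 0 < L) (g : ℝ × ℝ × ℝ → ℝ) (hg : Measurable g) :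
    ∫⁻ p : ℝ × ℝ × ℝ × ℝ, (Set.indicator {p : ℝ × ℝ × ℝ × ℝ | InI q L p.2.2.1}
      (fun p => ‖g (p.2.2.2, p.1, p.2.1)‖ₑ) p) ^ (4:ℝ) = ENNReal.ofReal L * eLpNorm g 4 volume ^ (4:ℝ) := by
  have hm : MeasurePreserving (fun p : ℝ × ℝ × ℝ × ℝ =>
      ((p.2.2.1, (p.2.2.2, (p.1, p.2.1))) : ℝ × ℝ × ℝ × ℝ)) volume volume := by
    have h1 : MeasurePreserving (MeasurableEquiv.prodAssoc : (ℝ × ℝ) × (ℝ × ℝ) ≃ᵐ ℝ × ℝ × (ℝ × ℝ))
      volume volume := volume_preserving_prodAssoc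
    have h2 : MeasurePreserving (Prod.swap : (ℝ × ℝ) × (ℝ × ℝ) → (ℝ × ℝ) × (ℝ × ℝ))
      volume volume := Measure.measurePreserving_swap
    exact h1.comp (h2.comp (h1.symm _))
  have hI : MeasurableSet (Set.Icc q (q + L)) := measurableSet_Icc
  have hG1 : Measurable (fun x : ℝ => Set.indicator (Set.Icc q (q + L)) (fun _ => (1 : ℝ≥0∞)) x) :=
    measurable_const.indicator hI
  have hG2 : Measurable (fun y : ℝ × ℝ × ℝ => ‖g y‖ₑ ^ (4:ℝ)) := hg.enorm.pow_const _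
  have hG : Measurable (fun z : ℝ × ℝ × ℝ × ℝ =>
      Set.indicator (Set.Icc q (q + L)) (fun _ => (1 : ℝ≥0∞)) z.1 * ‖g z.2‖ₑ ^ (4:ℝ)) :=
    (hG1.comp measurable_fst).mul (hG2.comp measurable_snd)
  have h1 : ∫⁻ p : ℝ × ℝ × ℝ × ℝ, (Set.indicator {p : ℝ × ℝ × ℝ × ℝ | InI q L p.2.2.1}
      (fun p => ‖g (p.2.2.2, p.1, p.2.1)‖ₑ) p) ^ (4:ℝ) =
      ∫⁻ z : ℝ × ℝ × ℝ × ℝ,
        Set.indicator (Set.Icc q (q + L)) (fun _ => (1 : ℝ≥0∞)) z.1 * ‖g z.2‖ₑ ^ (4:ℝ) := by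
    rw [← hm.lintegral_comp hG]
    apply lintegral_congr
    intro p
    by_cases hp : InI q L p.2.2.1
    · have hp' : p.2.2.1 ∈ Set.Icc q (q + L) := hp
      rw [Set.indicator_of_mem (show p ∈ {p : ℝ × ℝ × ℝ × ℝ | InI q L p.2.2.1} from hp)]
      simp only
      rw [Set.indicator_of_mem hp', one_mul]
    · have hp' : p.2.2.1 ∉ Set.Icc q (q + L) := hp
      rw [Set.indicator_of_notMem (show p ∉ {p : ℝ × ℝ × ℝ × ℝ | InI q L p.2.2.1} from hp)]
      simp only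
      rw [Set.indicator_of_notMem hp', zero_mul]
      exact ENNReal.zero_rpow_of_pos (by norm_num)
  have h2 : ∫⁻ z : ℝ × ℝ × ℝ × ℝ,
        Set.indicator (Set.Icc q (q + L)) (fun _ => (1 : ℝ≥0∞)) z.1 * ‖g z.2‖ₑ ^ (4:ℝ) =
      (∫⁻ x : ℝ, Set.indicator (Set.Icc q (q + L)) (fun _ => (1 : ℝ≥0∞)) x) *
        ∫⁻ y : ℝ × ℝ × ℝ, ‖g y‖ₑ ^ (4:ℝ) := by
    exact lintegral_prod_mul hG1.aemeasurable hG2.aemeasurable
  rw [h1, h2, lintegral_indicator hI, setLIntegral_const, one_mul, Real.volume_Icc]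
  have h3 : q + L - q = L := by ring
  rw [h3]
  congr 1
  rw [eLpNorm_eq_lintegral_rpow_enorm_toReal (by norm_num) (by norm_num)]
  have h4 : (4 : ℝ≥0∞).toReal = 4 := by norm_num
  rw [h4, ← ENNReal.rpow_mul]
  norm_num

/-- the far kernel -/
noncomputable def far (q1 q2 q3 L : ℝ) : ℝ × ℝ × ℝ × ℝ → ℝ≥0∞ :=
  Set.indicator {p : ℝ × ℝ × ℝ × ℝ | InI q1 L p.1 ∧ InI q2 L p.2.1 ∧ InI q3 L p.2.2.1}
    (fun p => if 6*L < |p.2.2.2 + (q1+q2+q3)| then ENNReal.ofReal (2 / |p.2.2.2 + (q1+q2+q3)|) else 0)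

theorem far_int (q1 q2 q3 L : ℝ) (hL : 0 < L) :
    ∫⁻ p, far q1 q2 q3 L p ^ (4:ℝ) ≤ 1 := by
  set q : ℝ := q1 + q2 + q3 with hq
  set W : ℝ → ℝ≥0∞ := fun w => (if 6*L < |w + q| then ENNReal.ofReal (2 / |w + q|) else 0)^(4:ℝ)
    with hW
  have hWm : Measurable W := by
    apply Measurable.pow_const
    apply Measurable.ite
    · exact measurableSet_lt measurable_const (by fun_prop)
    · fun_prop
    · exact measurable_const
  set I : ℝ → ℝ → ℝ≥0∞ := fun a => Set.indicator (Set.Icc a (a + L)) (fun _ => (1:ℝ≥0∞)) with hI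
  have hIm : ∀ a, Measurable (I a) := fun a => measurable_const.indicator measurableSet_Icc
  have hIi : ∀ a, ∫⁻ x, I a x = ENNReal.ofReal L := by
    intro a
    rw [hI]
    simp only
    rw [lintegral_indicator measurableSet_Icc]
    simp
  have hpt : ∀ p : ℝ × ℝ × ℝ × ℝ, far q1 q2 q3 L p ^ (4:ℝ) =
      I q1 p.1 * (fun r : ℝ × ℝ × ℝ => I q2 r.1 * (fun s : ℝ × ℝ => I q3 s.1 * W s.2) r.2) p.2 := by
    intro p
    by_cases h1 : p.1 ∈ Set.Icc q1 (q1 + L)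
    · by_cases h2 : p.2.1 ∈ Set.Icc q2 (q2 + L)
      · by_cases h3 : p.2.2.1 ∈ Set.Icc q3 (q3 + L)
        · have h : p ∈ {p : ℝ × ℝ × ℝ × ℝ | InI q1 L p.1 ∧ InI q2 L p.2.1 ∧ InI q3 L p.2.2.1} :=
            ⟨h1, h2, h3⟩
          simp only [far, hI, Set.indicator_of_mem h, Set.indicator_of_mem h1,
            Set.indicator_of_mem h2, Set.indicator_of_mem h3, one_mul, hW, hq]
        · have h : p ∉ {p : ℝ × ℝ × ℝ × ℝ | InI q1 L p.1 ∧ InI q2 L p.2.1 ∧ InI q3 L p.2.2.1} :=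
            fun hc => h3 hc.2.2
          simp only [far, hI, Set.indicator_of_notMem h, Set.indicator_of_notMem h3]
          simp
      · have h : p ∉ {p : ℝ × ℝ × ℝ × ℝ | InI q1 L p.1 ∧ InI q2 L p.2.1 ∧ InI q3 L p.2.2.1} :=
          fun hc => h2 hc.2.1
        simp only [far, hI, Set.indicator_of_notMem h, Set.indicator_of_notMem h2]
        simp
    · have h : p ∉ {p : ℝ × ℝ × ℝ × ℝ | InI q1 L p.1 ∧ InI q2 L p.2.1 ∧ InI q3 L p.2.2.1} :=
        fun hc => h1 hc.1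
      simp only [far, hI, Set.indicator_of_notMem h, Set.indicator_of_notMem h1]
      simp
  have m3 : Measurable (fun s : ℝ × ℝ => I q3 s.1 * W s.2) :=
    ((hIm q3).comp measurable_fst).mul (hWm.comp measurable_snd)
  have m2 : Measurable (fun r : ℝ × ℝ × ℝ => I q2 r.1 * (fun s : ℝ × ℝ => I q3 s.1 * W s.2) r.2) :=
    ((hIm q2).comp measurable_fst).mul (m3.comp measurable_snd)
  simp_rw [hpt]
  rw [Measure.volume_eq_prod, lintegral_prod_mul (hIm q1).aemeasurable m2.aemeasurable,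
    Measure.volume_eq_prod, lintegral_prod_mul (hIm q2).aemeasurable m3.aemeasurable,
    Measure.volume_eq_prod, lintegral_prod_mul (hIm q3).aemeasurable hWm.aemeasurable,
    hIi, hIi, hIi]
  have hWi : ∫⁻ w, W w ≤ ENNReal.ofReal ((L^3)⁻¹) := W_int q L hL
  calc ENNReal.ofReal L * (ENNReal.ofReal L * (ENNReal.ofReal L * ∫⁻ w, W w))
      ≤ ENNReal.ofReal L * (ENNReal.ofReal L * (ENNReal.ofReal L * ENNReal.ofReal ((L^3)⁻¹))) := by
        gcongr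
    _ = ENNReal.ofReal (L * (L * (L * (L^3)⁻¹))) := by
        rw [ENNReal.ofReal_mul hL.le, ENNReal.ofReal_mul hL.le, ENNReal.ofReal_mul hL.le]
    _ = 1 := by
        have : L * (L * (L * (L^3)⁻¹)) = 1 := by field_simp
        rw [this, ENNReal.ofReal_one]

theorem InI_meas (q L : ℝ) (π : ℝ × ℝ × ℝ × ℝ → ℝ) (hπ : Measurable π) :
    MeasurableSet {p : ℝ × ℝ × ℝ × ℝ | InI q L (π p)} := by
  unfold InI
  exact (measurableSet_le measurable_const hπ).inter (measurableSet_le hπ measurable_const)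

theorem far_meas (q1 q2 q3 L : ℝ) : Measurable (far q1 q2 q3 L) := by
  unfold far
  apply Measurable.indicator
  · apply Measurable.ite
    · exact measurableSet_lt measurable_const (by fun_prop)
    · apply Measurable.ennreal_ofReal
      fun_prop
    · exact measurable_const
  · exact (InI_meas q1 L (fun p => p.1) (by fun_prop)).inter
      ((InI_meas q2 L (fun p => p.2.1) (by fun_prop)).inter (InI_meas q3 L (fun p => p.2.2.1) (by fun_prop)))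

theorem ind_meas (q L : ℝ) (π : ℝ × ℝ × ℝ × ℝ → ℝ) (hπ : Measurable π) (F : ℝ × ℝ × ℝ × ℝ → ℝ≥0∞)
    (hF : Measurable F) : Measurable (Set.indicator {p : ℝ × ℝ × ℝ × ℝ | InI q L (π p)} F) :=
  Measurable.indicator hF (InI_meas q L π hπ)

theorem quarter (L : ℝ) (hL : 0 < L) (E : ℝ≥0∞) :
    (ENNReal.ofReal L * E ^ (4:ℝ)) ^ ((1:ℝ)/4) = ENNReal.ofReal (L ^ ((1:ℝ)/4)) * E := by
  rw [ENNReal.mul_rpow_of_nonneg _ _ (by norm_num), ← ENNReal.rpow_mul]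
  norm_num
  rw [ENNReal.ofReal_rpow_of_pos hL]

theorem trunc_le {ε N s w : ℝ} (hw : 0 < w) (h : w / 2 ≤ |s|) : |trunc ε N s| ≤ 2 / w := by
  unfold trunc
  split_ifs
  · rw [abs_inv]
    calc |s|⁻¹ ≤ (w/2)⁻¹ := inv_anti₀ (by positivity) h
      _ = 2 / w := by rw [inv_div]
  · rw [abs_zero]; positivity

/-- TARGET -/
theorem far_bound {a b c : ℝ × ℝ → ℝ}
    (ha1 : ∀ p, |a p| ≤ 1) (hb1 : ∀ p, |b p| ≤ 1) (hc1 : ∀ p, |c p| ≤ 1)
    {q1 q2 q3 L : ℝ} (hL : 0 < L)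
    (hsa : ∀ p, a p ≠ 0 → InI q1 L p.1 ∧ InI q2 L p.2)
    (hsb : ∀ p, b p ≠ 0 → InI q2 L p.1 ∧ InI q3 L p.2)
    {g h k : ℝ × ℝ × ℝ → ℝ} (hg : Good4 g) (hh : Good4 h) (hk : Good4 k)
    (hkf : ∀ w x y, |w + (q1+q2+q3)| ≤ 6*L → k (w, x, y) = 0)
    (ε N : ℝ) (hε : 0 < ε) :
    ENNReal.ofReal |Lam4 ε N (tri a b c) g h k| ≤
      ENNReal.ofReal (L^((3:ℝ)/4)) * (eLpNorm k 4 volume * eLpNorm g 4 volume * eLpNorm h 4 volume) := by
  set G : ℝ × ℝ × ℝ × ℝ → ℝ≥0∞ := Set.indicator {p : ℝ × ℝ × ℝ × ℝ | InI q1 L p.1}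
      (fun p => ‖g (p.2.1, p.2.2.1, p.2.2.2)‖ₑ) with hGdef
  set H : ℝ × ℝ × ℝ × ℝ → ℝ≥0∞ := Set.indicator {p : ℝ × ℝ × ℝ × ℝ | InI q2 L p.2.1}
      (fun p => ‖h (p.2.2.1, p.2.2.2, p.1)‖ₑ) with hHdef
  set K : ℝ × ℝ × ℝ × ℝ → ℝ≥0∞ := Set.indicator {p : ℝ × ℝ × ℝ × ℝ | InI q3 L p.2.2.1}
      (fun p => ‖k (p.2.2.2, p.1, p.2.1)‖ₑ) with hKdef
  have hGm : Measurable G := ind_meas q1 L (fun p => p.1) (by fun_prop) _
    (hg.meas.comp (by fun_prop : Measurable (fun p : ℝ × ℝ × ℝ × ℝ => (p.2.1, p.2.2.1, p.2.2.2)))).enorm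
  have hHm : Measurable H := ind_meas q2 L (fun p => p.2.1) (by fun_prop) _
    (hh.meas.comp (by fun_prop : Measurable (fun p : ℝ × ℝ × ℝ × ℝ => (p.2.2.1, p.2.2.2, p.1)))).enorm
  have hKm : Measurable K := ind_meas q3 L (fun p => p.2.2.1) (by fun_prop) _
    (hk.meas.comp (by fun_prop : Measurable (fun p : ℝ × ℝ × ℝ × ℝ => (p.2.2.2, p.1, p.2.1)))).enorm
  have hpt : ∀ p : ℝ × ℝ × ℝ × ℝ, ‖F4 (tri a b c) g h k p * trunc ε N (p.1 + p.2.1 + p.2.2.1 + p.2.2.2)‖ₑ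
      ≤ far q1 q2 q3 L p * G p * H p * K p := by
    rintro ⟨x1, x2, x3, x4⟩
    by_cases h0 : F4 (tri a b c) g h k (x1, x2, x3, x4) * trunc ε N (x1 + x2 + x3 + x4) = 0
    · simp only [h0, enorm_zero]; exact bot_le
    · have hF0 : F4 (tri a b c) g h k (x1, x2, x3, x4) ≠ 0 := left_ne_zero_of_mul h0
      unfold F4 tri at hF0
      simp only at hF0
      have hk0 : k (x4, x1, x2) ≠ 0 := right_ne_zero_of_mul hF0
      have h3 := left_ne_zero_of_mul (left_ne_zero_of_mul (left_ne_zero_of_mul hF0))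
      have h4 := left_ne_zero_of_mul h3
      have ha0 : a (x1, x2) ≠ 0 := left_ne_zero_of_mul h4
      have hb0 : b (x2, x3) ≠ 0 := right_ne_zero_of_mul h4
      obtain ⟨i1, i2⟩ := hsa _ ha0
      obtain ⟨_, i3⟩ := hsb _ hb0
      have hw : 6 * L < |x4 + (q1+q2+q3)| := by
        by_contra hcon
        exact hk0 (hkf x4 x1 x2 (not_lt.1 hcon))
      have hfar : far q1 q2 q3 L (x1, x2, x3, x4) = ENNReal.ofReal (2 / |x4 + (q1+q2+q3)|) := by
        unfold far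
        rw [Set.indicator_of_mem (show ((x1, x2, x3, x4) : ℝ × ℝ × ℝ × ℝ) ∈ {p : ℝ × ℝ × ℝ × ℝ | InI q1 L p.1 ∧ InI q2 L p.2.1 ∧ InI q3 L p.2.2.1} from ⟨i1, i2, i3⟩)]
        exact if_pos hw
      have hG : G (x1, x2, x3, x4) = ‖g (x2, x3, x4)‖ₑ := by
        rw [hGdef, Set.indicator_of_mem (show ((x1, x2, x3, x4) : ℝ × ℝ × ℝ × ℝ) ∈ {p : ℝ × ℝ × ℝ × ℝ | InI q1 L p.1} from i1)]
      have hH : H (x1, x2, x3, x4) = ‖h (x3, x4, x1)‖ₑ := by
        rw [hHdef, Set.indicator_of_mem (show ((x1, x2, x3, x4) : ℝ × ℝ × ℝ × ℝ) ∈ {p : ℝ × ℝ × ℝ × ℝ | InI q2 L p.2.1} from i2)]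
      have hK : K (x1, x2, x3, x4) = ‖k (x4, x1, x2)‖ₑ := by
        rw [hKdef, Set.indicator_of_mem (show ((x1, x2, x3, x4) : ℝ × ℝ × ℝ × ℝ) ∈ {p : ℝ × ℝ × ℝ × ℝ | InI q3 L p.2.2.1} from i3)]
      rw [hfar, hG, hH, hK]
      have hs : |x4 + (q1+q2+q3)| / 2 ≤ |x1 + x2 + x3 + x4| := by
        obtain ⟨a1, a2⟩ := i1
        obtain ⟨b1, b2⟩ := i2
        obtain ⟨c1, c2⟩ := i3
        simp only at a1 a2 b1 b2 c1 c2
        have hd : |(x1 - q1) + (x2 - q2) + (x3 - q3)| ≤ 3 * L := by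
          rw [abs_le]; constructor <;> linarith
        have ht : |x4 + (q1+q2+q3)| ≤ |x1 + x2 + x3 + x4| + |(x1 - q1) + (x2 - q2) + (x3 - q3)| := by
          have : x4 + (q1+q2+q3) = (x1 + x2 + x3 + x4) - ((x1 - q1) + (x2 - q2) + (x3 - q3)) := by ring
          rw [this]; exact abs_sub _ _
        linarith
      have htr : ‖trunc ε N (x1 + x2 + x3 + x4)‖ₑ ≤ ENNReal.ofReal (2 / |x4 + (q1+q2+q3)|) := by
        rw [Real.enorm_eq_ofReal_abs]
        exact ENNReal.ofReal_le_ofReal (trunc_le (by linarith) hs)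
      have hone : ‖a (x1, x2) * b (x2, x3) * c (x3, x1)‖ₑ ≤ 1 := by
        rw [Real.enorm_eq_ofReal_abs, ← ENNReal.ofReal_one]
        apply ENNReal.ofReal_le_ofReal
        rw [abs_mul, abs_mul]
        have e1 := ha1 (x1, x2)
        have e2 := hb1 (x2, x3)
        have e3 := hc1 (x3, x1)
        exact mul_le_one₀ (mul_le_one₀ e1 (abs_nonneg _) e2) (abs_nonneg _) e3
      unfold F4 tri
      simp only
      rw [enorm_mul, enorm_mul, enorm_mul, enorm_mul]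
      calc ‖a (x1, x2) * b (x2, x3) * c (x3, x1)‖ₑ * ‖g (x2, x3, x4)‖ₑ * ‖h (x3, x4, x1)‖ₑ * ‖k (x4, x1, x2)‖ₑ *
            ‖trunc ε N (x1 + x2 + x3 + x4)‖ₑ
          ≤ 1 * ‖g (x2, x3, x4)‖ₑ * ‖h (x3, x4, x1)‖ₑ * ‖k (x4, x1, x2)‖ₑ *
            ENNReal.ofReal (2 / |x4 + (q1+q2+q3)|) := by gcongr
        _ = _ := by ring
  calc ENNReal.ofReal |Lam4 ε N (tri a b c) g h k|
      = ‖∫ p : ℝ × ℝ × ℝ × ℝ, F4 (tri a b c) g h k p * trunc ε N (p.1 + p.2.1 + p.2.2.1 + p.2.2.2)‖ₑ := by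
        rw [Real.enorm_eq_ofReal_abs, Lam4]
    _ ≤ ∫⁻ p : ℝ × ℝ × ℝ × ℝ, ‖F4 (tri a b c) g h k p * trunc ε N (p.1 + p.2.1 + p.2.2.1 + p.2.2.2)‖ₑ :=
        enorm_integral_le_lintegral_enorm _
    _ ≤ ∫⁻ p, far q1 q2 q3 L p * G p * H p * K p := lintegral_mono hpt
    _ ≤ (∫⁻ p, far q1 q2 q3 L p ^ (4:ℝ)) ^ ((1:ℝ)/4) * (∫⁻ p, G p ^ (4:ℝ)) ^ ((1:ℝ)/4) *
      (∫⁻ p, H p ^ (4:ℝ)) ^ ((1:ℝ)/4) * (∫⁻ p, K p ^ (4:ℝ)) ^ ((1:ℝ)/4) :=
        holder4 _ _ _ _ (far_meas _ _ _ _) hGm hHm hKm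
    _ ≤ 1 * (ENNReal.ofReal (L ^ ((1:ℝ)/4)) * eLpNorm g 4 volume) *
      (ENNReal.ofReal (L ^ ((1:ℝ)/4)) * eLpNorm h 4 volume) * (ENNReal.ofReal (L ^ ((1:ℝ)/4)) * eLpNorm k 4 volume) := by
        rw [hGdef, hHdef, hKdef, ind_g q1 L hL g hg.meas, ind_h q2 L hL h hh.meas, ind_k q3 L hL k hk.meas,
          quarter L hL, quarter L hL, quarter L hL]
        gcongr
        calc (∫⁻ p, far q1 q2 q3 L p ^ (4:ℝ)) ^ ((1:ℝ)/4) ≤ (1:ℝ≥0∞) ^ ((1:ℝ)/4) :=
              ENNReal.rpow_le_rpow (far_int q1 q2 q3 L hL) (by norm_num)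
          _ = 1 := ENNReal.one_rpow _
    _ = (ENNReal.ofReal (L ^ ((1:ℝ)/4)) * ENNReal.ofReal (L ^ ((1:ℝ)/4)) * ENNReal.ofReal (L ^ ((1:ℝ)/4))) *
        (eLpNorm k 4 volume * eLpNorm g 4 volume * eLpNorm h 4 volume) := by ring
    _ = _ := by
        congr 1
        rw [← ENNReal.ofReal_mul (by positivity), ← ENNReal.ofReal_mul (by positivity),
          ← Real.rpow_add hL, ← Real.rpow_add hL]
        norm_num

/-- `L^3` norm on a set of measure at most `12 L^3` -/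
theorem loc34 (g : ℝ × ℝ × ℝ → ℝ) (hg : Measurable g) (S : Set (ℝ × ℝ × ℝ)) (hS : MeasurableSet S) (L : ℝ)
    (hL : 0 < L) (hv : volume S ≤ ENNReal.ofReal (12 * L^3)) :
    eLpNorm (S.indicator g) 3 volume ≤ eLpNorm g 4 volume * ENNReal.ofReal ((12 * L^3)^((1:ℝ)/12)) := by
  rw [eLpNorm_indicator_eq_eLpNorm_restrict hS]
  have h1 := eLpNorm_le_eLpNorm_mul_rpow_measure_univ (p := 3) (q := 4)
    (μ := volume.restrict S) (f := g) (by norm_num) hg.aestronglyMeasurable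
  have he : (1 / (3:ℝ≥0∞).toReal - 1 / (4:ℝ≥0∞).toReal) = (1:ℝ)/12 := by
    norm_num
  rw [he, Measure.restrict_apply_univ] at h1
  refine h1.trans ?_
  have hpos : (0:ℝ) ≤ 12 * L^3 := by positivity
  have h2 : (volume S) ^ ((1:ℝ)/12) ≤ ENNReal.ofReal ((12 * L^3)^((1:ℝ)/12)) := by
    rw [← ENNReal.ofReal_rpow_of_nonneg hpos (by norm_num)]
    exact ENNReal.rpow_le_rpow hv (by norm_num)
  exact mul_le_mul' (eLpNorm_mono_measure _ Measure.restrict_le_self) h2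

theorem near_bound_good {g : ℝ × ℝ × ℝ → ℝ} (hg : Good4 g) {S : Set (ℝ × ℝ × ℝ)}
    (hS : MeasurableSet S) : Good4 (S.indicator g) := by
  refine ⟨hg.meas.indicator hS, ?_, ?_⟩
  · refine hg.supp.mono ?_
    rw [Set.support_indicator]
    exact Set.inter_subset_right
  · obtain ⟨M, hM⟩ := hg.bdd
    refine ⟨|M|, fun p => ?_⟩
    by_cases hp : p ∈ S
    · rw [Set.indicator_of_mem hp]; exact (hM p).trans (le_abs_self M)
    · rw [Set.indicator_of_notMem hp, abs_zero]; exact abs_nonneg M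

/-- TARGET -/
theorem near_bound {C : ℝ} (hC0 : 0 ≤ C) (hC : B3 C) {a b c : ℝ × ℝ → ℝ}
    (ha : Measurable a) (hb : Measurable b) (hc : Measurable c)
    (ha1 : ∀ p, |a p| ≤ 1) (hb1 : ∀ p, |b p| ≤ 1) (hc1 : ∀ p, |c p| ≤ 1)
    {q1 q2 q3 L : ℝ} (hL : 0 < L)
    (hsa : ∀ p, a p ≠ 0 → InI q1 L p.1 ∧ InI q2 L p.2)
    (hsb : ∀ p, b p ≠ 0 → InI q2 L p.1 ∧ InI q3 L p.2)
    {g h k : ℝ × ℝ × ℝ → ℝ} (hg : Good4 g) (hh : Good4 h) (hk : Good4 k)
    (hkn : ∀ w x y, 6*L < |w + (q1+q2+q3)| → k (w, x, y) = 0)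
    (ε N : ℝ) (hε : 0 < ε) (hN : ε < N) :
    ENNReal.ofReal |Lam4 ε N (tri a b c) g h k| ≤
      ENNReal.ofReal (2 * C * L^((3:ℝ)/4)) * (eLpNorm k 4 volume * eLpNorm g 4 volume * eLpNorm h 4 volume) := by
  set q : ℝ := q1 + q2 + q3 with hq
  set I1 : Set ℝ := Set.Icc q1 (q1 + L) with hI1
  set I2 : Set ℝ := Set.Icc q2 (q2 + L) with hI2
  set I3 : Set ℝ := Set.Icc q3 (q3 + L) with hI3
  set J : Set ℝ := Set.Icc (-q - 6 * L) (-q + 6 * L) with hJ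
  have hJm : ∀ w : ℝ, w ∈ J ↔ ¬ 6 * L < |w + q| := by
    intro w
    rw [hJ, Set.mem_Icc, not_lt, abs_le]
    constructor
    · rintro ⟨h1, h2⟩; exact ⟨by linarith, by linarith⟩
    · rintro ⟨h1, h2⟩; exact ⟨by linarith, by linarith⟩
  set Sg : Set (ℝ × ℝ × ℝ) := I2 ×ˢ (I3 ×ˢ J) with hSg
  set Sh : Set (ℝ × ℝ × ℝ) := I3 ×ˢ (J ×ˢ I1) with hSh
  set Sk : Set (ℝ × ℝ × ℝ) := J ×ˢ (I1 ×ˢ I2) with hSk
  have mg : MeasurableSet Sg := measurableSet_Icc.prod (measurableSet_Icc.prod measurableSet_Icc)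
  have mh : MeasurableSet Sh := measurableSet_Icc.prod (measurableSet_Icc.prod measurableSet_Icc)
  have mk' : MeasurableSet Sk := measurableSet_Icc.prod (measurableSet_Icc.prod measurableSet_Icc)
  have vbox : ∀ A B D : Set ℝ, volume (A ×ˢ (B ×ˢ D) : Set (ℝ × ℝ × ℝ)) =
      volume A * (volume B * volume D) := by
    intro A B D
    rw [Measure.volume_eq_prod, Measure.prod_prod, Measure.volume_eq_prod, Measure.prod_prod]
  have vI1 : volume I1 = ENNReal.ofReal L := by rw [hI1, Real.volume_Icc]; congr 1; ring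
  have vI2 : volume I2 = ENNReal.ofReal L := by rw [hI2, Real.volume_Icc]; congr 1; ring
  have vI3 : volume I3 = ENNReal.ofReal L := by rw [hI3, Real.volume_Icc]; congr 1; ring
  have vJ : volume J = ENNReal.ofReal (12 * L) := by rw [hJ, Real.volume_Icc]; congr 1; ring
  have hv3 : ENNReal.ofReal L * (ENNReal.ofReal L * ENNReal.ofReal (12 * L)) =
      ENNReal.ofReal (12 * L^3) := by
    rw [← ENNReal.ofReal_mul hL.le, ← ENNReal.ofReal_mul hL.le]; congr 1; ring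
  have vg : volume Sg ≤ ENNReal.ofReal (12 * L^3) := by
    rw [hSg, vbox, vI2, vI3, vJ, hv3]
  have vh : volume Sh ≤ ENNReal.ofReal (12 * L^3) := by
    rw [hSh, vbox, vI3, vI1, vJ, mul_comm (ENNReal.ofReal (12 * L)), hv3]
  have vk : volume Sk ≤ ENNReal.ofReal (12 * L^3) := by
    rw [hSk, vbox, vI1, vI2, vJ, ← hv3]
    apply le_of_eq
    ring
  have hLam : Lam4 ε N (tri a b c) g h k =
      Lam4 ε N (tri a b c) (Sg.indicator g) (Sh.indicator h) (Sk.indicator k) := by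
    unfold Lam4
    congr 1
    funext p
    obtain ⟨x1, x2, x3, w⟩ := p
    have : F4 (tri a b c) g h k (x1, x2, x3, w) =
        F4 (tri a b c) (Sg.indicator g) (Sh.indicator h) (Sk.indicator k) (x1, x2, x3, w) := by
      simp only [F4, tri]
      by_cases h1 : a (x1, x2) = 0
      · rw [h1]; ring
      by_cases h2 : b (x2, x3) = 0
      · rw [h2]; ring
      obtain ⟨e1, e2⟩ := hsa _ h1
      obtain ⟨e3, e4⟩ := hsb _ h2
      by_cases h3 : 6 * L < |w + q|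
      · have h4 : k (w, x1, x2) = 0 := hkn w x1 x2 h3
        have h5 : Sk.indicator k (w, x1, x2) = 0 := by
          rw [Set.indicator_apply, h4]; simp
        rw [h4, h5]; ring
      · have hw : w ∈ J := (hJm w).mpr h3
        have m1 : ((x2, x3, w) : ℝ × ℝ × ℝ) ∈ Sg := ⟨e2, e4, hw⟩
        have m2 : ((x3, w, x1) : ℝ × ℝ × ℝ) ∈ Sh := ⟨e4, hw, e1⟩
        have m3 : ((w, x1, x2) : ℝ × ℝ × ℝ) ∈ Sk := ⟨hw, e1, e2⟩
        rw [Set.indicator_of_mem m1, Set.indicator_of_mem m2, Set.indicator_of_mem m3]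
    rw [this]
  rw [hLam]
  refine (T1 hC0 hC ha hb hc ha1 hb1 hc1 (near_bound_good hg mg) (near_bound_good hh mh)
    (near_bound_good hk mk') ε N hε hN).trans ?_
  have bk := loc34 k hk.meas Sk mk' L hL vk
  have bg := loc34 g hg.meas Sg mg L hL vg
  have bh := loc34 h hh.meas Sh mh L hL vh
  set s : ℝ≥0∞ := ENNReal.ofReal ((12 * L^3)^((1:ℝ)/12)) with hs
  have hs3 : s ^ 3 ≤ ENNReal.ofReal (2 * L^((3:ℝ)/4)) := by
    rw [hs, ← ENNReal.ofReal_pow (by positivity)]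
    apply ENNReal.ofReal_le_ofReal
    rw [← Real.rpow_natCast, ← Real.rpow_mul (by positivity)]
    have e1 : ((1:ℝ)/12) * ((3:ℕ):ℝ) = 1/4 := by norm_num
    rw [e1, Real.mul_rpow (by norm_num) (by positivity)]
    have e2 : (L^3)^((1:ℝ)/4) = L^((3:ℝ)/4) := by
      rw [← Real.rpow_natCast, ← Real.rpow_mul hL.le]; norm_num
    rw [e2]
    refine mul_le_mul_of_nonneg_right ?_ (by positivity)
    calc (12:ℝ)^((1:ℝ)/4) ≤ (2^4:ℝ)^((1:ℝ)/4) := by
          apply Real.rpow_le_rpow (by norm_num) (by norm_num) (by norm_num)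
      _ = 2 := by
          rw [← Real.rpow_natCast, ← Real.rpow_mul (by norm_num)]; norm_num
  calc ENNReal.ofReal C * (eLpNorm (Sk.indicator k) 3 volume * eLpNorm (Sg.indicator g) 3 volume *
        eLpNorm (Sh.indicator h) 3 volume)
      ≤ ENNReal.ofReal C * ((eLpNorm k 4 volume * s) * (eLpNorm g 4 volume * s) *
        (eLpNorm h 4 volume * s)) := by gcongr
    _ = (ENNReal.ofReal C * s ^ 3) * (eLpNorm k 4 volume * eLpNorm g 4 volume * eLpNorm h 4 volume) := by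
        ring
    _ ≤ (ENNReal.ofReal C * ENNReal.ofReal (2 * L^((3:ℝ)/4))) *
        (eLpNorm k 4 volume * eLpNorm g 4 volume * eLpNorm h 4 volume) := by gcongr
    _ = _ := by
        rw [← ENNReal.ofReal_mul hC0]
        congr 2
        ring

theorem T2' {C : ℝ} (hC0 : 0 ≤ C) (hC : B3 C) {a b c : ℝ × ℝ → ℝ}
    (ha : Measurable a) (hb : Measurable b) (hc : Measurable c)
    (ha1 : ∀ p, |a p| ≤ 1) (hb1 : ∀ p, |b p| ≤ 1) (hc1 : ∀ p, |c p| ≤ 1)
    {q1 q2 q3 L : ℝ} (hL : 0 < L)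
    (hsa : ∀ p, a p ≠ 0 → InI q1 L p.1 ∧ InI q2 L p.2)
    (hsb : ∀ p, b p ≠ 0 → InI q2 L p.1 ∧ InI q3 L p.2)
    {g h k : ℝ × ℝ × ℝ → ℝ} (hg : Good4 g) (hh : Good4 h) (hk : Good4 k)
    (ε N : ℝ) (hε : 0 < ε) (hN : ε < N) :
    ENNReal.ofReal |Lam4 ε N (tri a b c) g h k| ≤
      ENNReal.ofReal ((2 * C + 1) * L^((3:ℝ)/4)) * (eLpNorm k 4 volume * eLpNorm g 4 volume * eLpNorm h 4 volume) := by
  classical
  set S : Set (ℝ × ℝ × ℝ) := {p | |p.1 + (q1+q2+q3)| ≤ 6*L} with hS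
  have hSm : MeasurableSet S := measurableSet_le (by fun_prop) measurable_const
  set k1 : ℝ × ℝ × ℝ → ℝ := S.indicator k with hk1
  set k2 : ℝ × ℝ × ℝ → ℝ := Sᶜ.indicator k with hk2
  have hkk : ∀ p, k p = k1 p + k2 p := fun p => by
    rw [hk1, hk2]; exact (congrFun (Set.indicator_self_add_compl S k) p).symm
  have good_ind : ∀ T : Set (ℝ × ℝ × ℝ), MeasurableSet T → Good4 (T.indicator k) := fun T hT => by
    refine ⟨hk.meas.indicator hT, ?_, ?_⟩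
    · exact hk.supp.mono (fun p hp => by
        rw [Function.mem_support] at hp ⊢
        intro h0; apply hp
        by_cases hpT : p ∈ T
        · rw [Set.indicator_of_mem hpT, h0]
        · rw [Set.indicator_of_notMem hpT])
    · obtain ⟨M, hM⟩ := hk.bdd
      refine ⟨M, fun p => ?_⟩
      by_cases hpT : p ∈ T
      · rw [Set.indicator_of_mem hpT]; exact hM p
      · rw [Set.indicator_of_notMem hpT, abs_zero]; exact (abs_nonneg _).trans (hM p)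
  have g1 : Good4 k1 := good_ind S hSm
  have g2 : Good4 k2 := good_ind Sᶜ hSm.compl
  have le1 : eLpNorm k1 4 volume ≤ eLpNorm k 4 volume := eLpNorm_indicator_le _
  have le2 : eLpNorm k2 4 volume ≤ eLpNorm k 4 volume := eLpNorm_indicator_le _
  have htm : Measurable (tri a b c) := by
    unfold tri
    exact ((ha.comp (by fun_prop)).mul (hb.comp (by fun_prop))).mul (hc.comp (by fun_prop))
  have htb : ∃ M : ℝ, ∀ p, |tri a b c p| ≤ M := ⟨1, fun p => by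
    unfold tri
    rw [abs_mul, abs_mul]
    have e1 := ha1 (p.1, p.2.1)
    have e2 := hb1 (p.2.1, p.2.2)
    have e3 := hc1 (p.2.2, p.1)
    have : |a (p.1, p.2.1)| * |b (p.2.1, p.2.2)| ≤ 1 := mul_le_one₀ e1 (abs_nonneg _) e2
    exact mul_le_one₀ this (abs_nonneg _) e3⟩
  have hadd : Lam4 ε N (tri a b c) g h k = Lam4 ε N (tri a b c) g h k1 + Lam4 ε N (tri a b c) g h k2 := by
    unfold Lam4
    rw [← integral_add (F4_int htm htb hg hh g1 ε N hε) (F4_int htm htb hg hh g2 ε N hε)]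
    refine integral_congr_ae (Filter.Eventually.of_forall fun p => ?_)
    simp only [F4]
    rw [hkk]
    ring
  have n1 := near_bound hC0 hC ha hb hc ha1 hb1 hc1 hL hsa hsb hg hh g1 (fun w x y hw => by
    rw [hk1]; apply Set.indicator_of_notMem; rw [hS]; simp only [Set.mem_ofPred_eq]; exact not_le.mpr hw) ε N hε hN
  have n2 := far_bound ha1 hb1 hc1 hL hsa hsb hg hh g2 (fun w x y hw => by
    rw [hk2]; apply Set.indicator_of_notMem; rw [Set.mem_compl_iff, not_not]; exact hw) ε N hε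
  have hL0 : 0 ≤ L^((3:ℝ)/4) := by positivity
  calc ENNReal.ofReal |Lam4 ε N (tri a b c) g h k|
      ≤ ENNReal.ofReal |Lam4 ε N (tri a b c) g h k1| + ENNReal.ofReal |Lam4 ε N (tri a b c) g h k2| := by
        rw [hadd, ← ENNReal.ofReal_add (abs_nonneg _) (abs_nonneg _)]
        exact ENNReal.ofReal_le_ofReal (abs_add_le _ _)
    _ ≤ ENNReal.ofReal (2 * C * L^((3:ℝ)/4)) * (eLpNorm k 4 volume * eLpNorm g 4 volume * eLpNorm h 4 volume) +
        ENNReal.ofReal (L^((3:ℝ)/4)) * (eLpNorm k 4 volume * eLpNorm g 4 volume * eLpNorm h 4 volume) := by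
        refine add_le_add (n1.trans ?_) (n2.trans ?_) <;> gcongr
    _ = _ := by
        rw [← add_mul, ← ENNReal.ofReal_add (by positivity) hL0]
        congr 2
        ring

end Pool.Agent.CTH
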