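import Mathlib
import Pool.Agent.CTH.Z3a
import Pool.Agent.Helper912.ZG
import Pool.Agent.Helper519.CTH.Spline

open MeasureTheory Finset

namespace Pool.Agent.CTH

open Helper912.Z
open Pool.Agent.Helper519.CTH (Zphi_cont Zphi_odd Zphi_supp Zphi_int_ne Zphi_abs)

theorem lam3 : ∃ C : ℝ, 0 ≤ C ∧ ∀ f g k : ℝ × ℝ → ℝ, Good f → Good g → Good k → ∀ ε N : ℝ, 0 < ε → ε < N →
      |∫ p : ℝ × ℝ × ℝ, F3 f g k p * trunc ε N (p.1 + p.2.1 + p.2.2)| ≤ C * (N3 f * N3 g * N3 k) := by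
  exact Z3a (M := 2) ⟨Zphi_cont, Zphi_odd, fun u hu => Zphi_supp u hu, Zphi_abs⟩
    (by unfold Ph; exact Zphi_int_ne) z2



end Pool.Agent.CTH
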