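import Mathlib
import Pool.Agent.CTH.Lam3
import Pool.Agent.CTH.Five

open MeasureTheory Finset
open scoped ENNReal

namespace Pool.Agent.CTH

open Helper912.Z

/-- the closed cube with lowest corner `q` and side `L` -/
def cube (q : ℝ × ℝ × ℝ) (L : ℝ) : Set (ℝ × ℝ × ℝ) :=
  {x | (q.1 ≤ x.1 ∧ x.1 ≤ q.1 + L) ∧ (q.2.1 ≤ x.2.1 ∧ x.2.1 ≤ q.2.1 + L) ∧
    (q.2.2 ≤ x.2.2 ∧ x.2.2 ≤ q.2.2 + L)}

theorem InI_meas' (q L : ℝ) : MeasurableSet {x : ℝ | InI q L x} := by
  have : {x : ℝ | InI q L x} = Set.Icc q (q + L) := by ext x; rfl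
  rw [this]; exact measurableSet_Icc

theorem cube_main {C : ℝ} (hC0 : 0 ≤ C) (hC : B3 C) (q : ℝ × ℝ × ℝ) (L : ℝ) (hL : 0 < L)
    (a b c : ℝ × ℝ → ℝ) (ha : Measurable a) (hb : Measurable b) (hc : Measurable c)
    (ha1 : ∀ p, |a p| ≤ 1) (hb1 : ∀ p, |b p| ≤ 1) (hc1 : ∀ p, |c p| ≤ 1)
    (g h k : ℝ × ℝ × ℝ → ℝ) (hg : Good4 g) (hh : Good4 h) (hk : Good4 k)
    (ε N : ℝ) (hε : 0 < ε) (hN : ε < N) :
    |Lam4 ε N ((cube q L).indicator (fun x => a (x.1, x.2.1) * b (x.2.1, x.2.2) * c (x.2.2, x.1))) g h k| ≤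
      (2 * C + 1) * L^((3:ℝ)/4) * ((eLpNorm g 4 volume).toReal * (eLpNorm h 4 volume).toReal *
        (eLpNorm k 4 volume).toReal) := by
  classical
  set A : Set (ℝ × ℝ) := {p | InI q.1 L p.1 ∧ InI q.2.1 L p.2} with hA
  set B : Set (ℝ × ℝ) := {p | InI q.2.1 L p.1 ∧ InI q.2.2 L p.2} with hB
  have hAm : MeasurableSet A :=
    (measurable_fst (InI_meas' q.1 L)).inter (measurable_snd (InI_meas' q.2.1 L))
  have hBm : MeasurableSet B :=
    (measurable_fst (InI_meas' q.2.1 L)).inter (measurable_snd (InI_meas' q.2.2 L))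
  have hind : ∀ (S : Set (ℝ × ℝ)) (u : ℝ × ℝ → ℝ), (∀ p, |u p| ≤ 1) → ∀ p, |S.indicator u p| ≤ 1 := by
    intro S u hu p
    by_cases hp : p ∈ S
    · rw [Set.indicator_of_mem hp]; exact hu p
    · rw [Set.indicator_of_notMem hp, abs_zero]; exact zero_le_one
  have heq : (cube q L).indicator (fun x => a (x.1, x.2.1) * b (x.2.1, x.2.2) * c (x.2.2, x.1)) =
      tri (A.indicator a) (B.indicator b) c := by
    funext x
    unfold tri
    by_cases h1 : (x.1, x.2.1) ∈ A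
    · by_cases h2 : (x.2.1, x.2.2) ∈ B
      · rw [Set.indicator_of_mem h1, Set.indicator_of_mem h2, Set.indicator_of_mem]
        exact ⟨h1.1, h1.2, h2.2⟩
      · rw [Set.indicator_of_notMem h2, mul_zero, zero_mul, Set.indicator_of_notMem]
        intro hx
        exact h2 ⟨hx.2.1, hx.2.2⟩
    · rw [Set.indicator_of_notMem h1, zero_mul, zero_mul, Set.indicator_of_notMem]
      intro hx
      exact h1 ⟨hx.1, hx.2.1⟩
  rw [heq]
  have key := T2' hC0 hC (ha.indicator hAm) (hb.indicator hBm) hc (hind A a ha1) (hind B b hb1) hc1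
    (q1 := q.1) (q2 := q.2.1) (q3 := q.2.2) hL
    (fun p hp => by
      by_contra h0
      have h1 : p ∉ A := h0
      exact hp (Set.indicator_of_notMem h1 a))
    (fun p hp => by
      by_contra h0
      have h1 : p ∉ B := h0
      exact hp (Set.indicator_of_notMem h1 b)) hg hh hk ε N hε hN
  have fg := (eLp4_lt hg 4).ne
  have fh := (eLp4_lt hh 4).ne
  have fk := (eLp4_lt hk 4).ne
  have hnn : 0 ≤ (2 * C + 1) * L^((3:ℝ)/4) := by positivity
  have key2 := ENNReal.toReal_mono (by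
    refine ENNReal.mul_ne_top ENNReal.ofReal_ne_top ?_
    exact ENNReal.mul_ne_top (ENNReal.mul_ne_top fk fg) fh) key
  rw [ENNReal.toReal_ofReal (abs_nonneg _), ENNReal.toReal_mul, ENNReal.toReal_mul, ENNReal.toReal_mul,
    ENNReal.toReal_ofReal hnn] at key2
  refine key2.trans (le_of_eq ?_)
  ring

/-- the norm of a unimodular structured function on a cube -/
theorem cube_norm (q : ℝ × ℝ × ℝ) (L : ℝ) (hL : 0 < L) (u : ℝ × ℝ × ℝ → ℝ) (hu : ∀ p, |u p| = 1) :
    (eLpNorm ((cube q L).indicator u) 4 volume).toReal = L^((3:ℝ)/4) := by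
  have hcm : MeasurableSet (cube q L) := by
    have : cube q L = Set.Icc q.1 (q.1+L) ×ˢ (Set.Icc q.2.1 (q.2.1+L) ×ˢ Set.Icc q.2.2 (q.2.2+L)) := by
      ext x; rfl
    rw [this]
    exact measurableSet_Icc.prod (measurableSet_Icc.prod measurableSet_Icc)
  have hvol : volume (cube q L) = ENNReal.ofReal (L^3) := by
    have : cube q L = Set.Icc q.1 (q.1+L) ×ˢ (Set.Icc q.2.1 (q.2.1+L) ×ˢ Set.Icc q.2.2 (q.2.2+L)) := by
      ext x; rfl
    rw [this, Measure.volume_eq_prod, Measure.prod_prod, Measure.volume_eq_prod, Measure.prod_prod]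
    simp only [Real.volume_Icc, add_sub_cancel_left]
    rw [← ENNReal.ofReal_mul hL.le, ← ENNReal.ofReal_mul hL.le]
    congr 1; ring
  have h1 : eLpNorm ((cube q L).indicator u) 4 volume =
      eLpNorm ((cube q L).indicator (fun _ => (1:ℝ))) 4 volume := by
    refine eLpNorm_congr_norm_ae (Filter.Eventually.of_forall fun p => ?_)
    by_cases hp : p ∈ cube q L
    · rw [Set.indicator_of_mem hp, Set.indicator_of_mem hp, Real.norm_eq_abs, hu p]; simp
    · rw [Set.indicator_of_notMem hp, Set.indicator_of_notMem hp]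
  rw [h1, eLpNorm_indicator_const hcm (by norm_num) (by norm_num), hvol]
  rw [ENNReal.toReal_mul, ← ENNReal.toReal_rpow, ENNReal.toReal_ofReal (by positivity)]
  simp only [enorm_one, ENNReal.toReal_one, one_mul]
  rw [← Real.rpow_natCast, ← Real.rpow_mul hL.le]
  congr 1
  norm_num

end Pool.Agent.CTH
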